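import Mathlib

set_option autoImplicit false

namespace Pool.Agent.H.MP_b01f87_al

open scoped commutatorElement

universe u

variable {G : Type u} [Group G]

/-- `P` is the positive cone of an invariant total order on the cosets of `S` in `T`. -/
structure LC (S T : Subgroup G) (P : Set G) : Prop where
  le : S ≤ T
  sub : ∀ a ∈ P, a ∈ T
  mul : ∀ a ∈ P, ∀ b ∈ P, a * b ∈ P
  sl : ∀ s ∈ S, ∀ a ∈ P, s * a ∈ P
  sr : ∀ a ∈ P, ∀ s ∈ S, a * s ∈ P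
  dis : ∀ a ∈ P, a ∉ S
  tri : ∀ g ∈ T, g ∉ S → g ∈ P ∨ g⁻¹ ∈ P

def Cj (P : Set G) : Prop := ∀ x, ∀ a ∈ P, x * a * x⁻¹ ∈ P

def RC (S T : Subgroup G) : Prop := ∃ P, LC S T P

def BC (S T : Subgroup G) : Prop := ∃ P, LC S T P ∧ Cj P

def Bad (T : Subgroup G) : Prop :=
  ∃ S P, LC S T P ∧ ∃ f g, f ∈ P ∧ f⁻¹ * g ∈ P ∧ ∀ m : ℕ, f⁻¹ * (g ^ (m + 1))⁻¹ * f * g ∈ P

theorem BC.rc {S T : Subgroup G} (h : BC S T) : RC S T := h.imp fun _ k => k.1

theorem LC.pow {S T : Subgroup G} {P : Set G} (h : LC S T P) {a : G} (ha : a ∈ P) (n : ℕ) :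
    a ^ (n + 1) ∈ P := by
  induction n with
  | zero => simpa using ha
  | succ n ih => rw [pow_succ]; exact h.mul _ ih _ ha

theorem LC.asym {S T : Subgroup G} {P : Set G} (h : LC S T P) {a : G} (ha : a ∈ P) : a⁻¹ ∉ P :=
  fun k => h.dis _ (h.mul _ ha _ k) (by simp)

theorem RC.root {S T : Subgroup G} (h : RC S T) {x : G} (hx : x ∈ T) {n : ℕ}
    (k : x ^ (n + 1) ∈ S) : x ∈ S := by
  obtain ⟨P, h⟩ := h
  by_contra e
  rcases h.tri x hx e with a | a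
  · exact h.dis _ (h.pow a n) k
  · exact h.dis _ (h.pow a n) (by rw [inv_pow]; exact inv_mem k)

theorem BC.normal {S T : Subgroup G} (h : BC S T) (hT : T.Normal) : S.Normal := by
  obtain ⟨P, h, c⟩ := h
  refine ⟨fun s hs x => by_contra fun e => ?_⟩
  rcases h.tri _ (hT.conj_mem _ (h.le hs) x) e with a | a
  · exact h.dis _ (c x⁻¹ _ a) (by simpa [mul_assoc] using hs)
  · exact h.dis _ (c x⁻¹ _ a) (by simpa [mul_assoc] using hs)

theorem LC.lex {S T U : Subgroup G} {P Q : Set G} (h : LC S T P) (k : LC T U Q) :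
    LC S U (P ∪ Q) := by
  refine ⟨h.le.trans k.le, ?_, ?_, ?_, ?_, ?_, fun g hg e => ?_⟩
  · rintro a (a1 | a1)
    exacts [k.le (h.sub a a1), k.sub a a1]
  · rintro a (a1 | a1) b (b1 | b1)
    exacts [Or.inl (h.mul _ a1 _ b1), Or.inr (k.sl _ (h.sub _ a1) _ b1),
      Or.inr (k.sr _ a1 _ (h.sub _ b1)), Or.inr (k.mul _ a1 _ b1)]
  · rintro s hs a (a1 | a1)
    exacts [Or.inl (h.sl _ hs _ a1), Or.inr (k.sl _ (h.le hs) _ a1)]
  · rintro a (a1 | a1) s hs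
    exacts [Or.inl (h.sr _ a1 _ hs), Or.inr (k.sr _ a1 _ (h.le hs))]
  · rintro a (a1 | a1)
    exacts [h.dis _ a1, fun e => k.dis _ a1 (h.le e)]
  · by_cases t : g ∈ T
    · exact (h.tri g t e).imp Or.inl Or.inl
    · exact (k.tri g hg t).imp Or.inr Or.inr

theorem RC.lex {S T U : Subgroup G} (h : RC S T) (k : RC T U) : RC S U := by
  obtain ⟨P, h⟩ := h; obtain ⟨Q, k⟩ := k; exact ⟨_, h.lex k⟩

theorem BC.lex {S T U : Subgroup G} (h : BC S T) (k : BC T U) : BC S U := by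
  obtain ⟨P, h, c⟩ := h; obtain ⟨Q, k, d⟩ := k
  exact ⟨_, h.lex k, fun x a ha => ha.imp (c x a) (d x a)⟩

theorem Bad.lex {T U : Subgroup G} (h : Bad T) (k : RC T U) : Bad U := by
  obtain ⟨S, P, h, f, g, a, b, c⟩ := h; obtain ⟨Q, k⟩ := k
  exact ⟨S, _, h.lex k, f, g, Or.inl a, Or.inl b, fun m => Or.inl (c m)⟩

section hom
variable {G' : Type*} [Group G']

theorem LC.comap {S T : Subgroup G'} {P : Set G'} (h : LC S T P) (f : G →* G') :
    LC (S.comap f) (T.comap f) (f ⁻¹' P) :=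
  ⟨Subgroup.comap_mono h.le, fun a ha => h.sub _ ha,
    fun a ha b hb => by simpa using h.mul _ ha _ hb, fun a ha b hb => by simpa using h.sl _ ha _ hb,
    fun a ha b hb => by simpa using h.sr _ ha _ hb, fun a ha => h.dis _ ha,
    fun g hg e => by simpa using h.tri _ hg e⟩

theorem RC.comap {S T : Subgroup G'} (h : RC S T) (f : G →* G') : RC (S.comap f) (T.comap f) := by
  obtain ⟨P, h⟩ := h; exact ⟨_, h.comap f⟩

theorem BC.comap {S T : Subgroup G'} (h : BC S T) (f : G →* G') : BC (S.comap f) (T.comap f) := by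
  obtain ⟨P, h, c⟩ := h; exact ⟨_, h.comap f, fun x a ha => by simpa using c (f x) _ ha⟩

theorem LC.map {S T : Subgroup G} {P : Set G} (h : LC S T P) (f : G →* G') (hf : f.ker ≤ S) :
    LC (S.map f) (T.map f) (f '' P) := by
  refine ⟨Subgroup.map_mono h.le, ?_, ?_, ?_, ?_, ?_, ?_⟩
  · rintro _ ⟨a, ha, rfl⟩; exact ⟨a, h.sub a ha, rfl⟩
  · rintro _ ⟨a, ha, rfl⟩ _ ⟨b, hb, rfl⟩; exact ⟨_, h.mul _ ha _ hb, map_mul _ _ _⟩
  · rintro _ ⟨a, ha, rfl⟩ _ ⟨b, hb, rfl⟩; exact ⟨_, h.sl _ ha _ hb, map_mul _ _ _⟩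
  · rintro _ ⟨a, ha, rfl⟩ _ ⟨b, hb, rfl⟩; exact ⟨_, h.sr _ ha _ hb, map_mul _ _ _⟩
  · rintro _ ⟨a, ha, rfl⟩ ⟨s, hs, e⟩
    have : s⁻¹ * a ∈ S := hf (by simp [MonoidHom.mem_ker, e])
    exact h.dis a ha (by simpa using mul_mem hs this)
  · rintro _ ⟨a, ha, rfl⟩ e
    exact (h.tri a ha fun k => e ⟨a, k, rfl⟩).imp (fun k => ⟨a, k, rfl⟩) fun k => ⟨_, k, map_inv _ _⟩

theorem RC.map {S T : Subgroup G} (h : RC S T) (f : G →* G') (hf : f.ker ≤ S) :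
    RC (S.map f) (T.map f) := by
  obtain ⟨P, h⟩ := h; exact ⟨_, h.map f hf⟩

theorem BC.map {S : Subgroup G} (h : BC S ⊤) (f : G →* G') (hf : f.ker ≤ S)
    (sj : Function.Surjective f) : BC (S.map f) ⊤ := by
  obtain ⟨P, h, c⟩ := h
  refine ⟨_, by simpa [Subgroup.map_top_of_surjective f sj] using h.map f hf, ?_⟩
  rintro x _ ⟨a, ha, rfl⟩
  obtain ⟨x, rfl⟩ := sj x
  exact ⟨_, c x a ha, by simp⟩

theorem Bad.comap (h : Bad (⊤ : Subgroup G')) (φ : G →* G') (sj : Function.Surjective φ) :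
    Bad (⊤ : Subgroup G) := by
  obtain ⟨S, P, h, f, g, a, b, c⟩ := h
  obtain ⟨f, rfl⟩ := sj f
  obtain ⟨g, rfl⟩ := sj g
  exact ⟨_, _, h.comap φ, f, g, a, by simpa using b, fun m => by simpa using c m⟩

end hom

theorem ker_sub (T : Subgroup G) (S : Subgroup T) : T.subtype.ker ≤ S := by simp

theorem map_sub (T : Subgroup G) : (⊤ : Subgroup T).map T.subtype = T := by
  simp [← MonoidHom.range_eq_map]

theorem Bad.sub {T : Subgroup G} (h : Bad (⊤ : Subgroup T)) (k : RC T ⊤) : Bad (⊤ : Subgroup G) := by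
  obtain ⟨S, P, h, f, g, a, b, c⟩ := h
  have := h.map T.subtype (ker_sub _ _)
  rw [map_sub] at this
  exact Bad.lex ⟨_, _, this, f, g, ⟨f, a, rfl⟩, ⟨_, b, by simp⟩, fun m => ⟨_, c m, by simp⟩⟩ k

theorem BC.quot {N : Subgroup G} [N.Normal] (h : BC N ⊤) : BC (⊥ : Subgroup (G ⧸ N)) ⊤ := by
  have := h.map (QuotientGroup.mk' N) (by simp) (QuotientGroup.mk'_surjective N)
  rwa [(Subgroup.map_eq_bot_iff _).2 (by simp)] at this

theorem BC.sub (h : BC (⊥ : Subgroup G) ⊤) (T : Subgroup G) : BC (⊥ : Subgroup T) ⊤ := by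
  simpa using h.comap T.subtype

theorem LC.inf {ι : Type*} {T : Subgroup G} (S : ι → Subgroup G) (P : ι → Set G)
    (h : ∀ i, LC (S i) T (P i)) : ∃ Q, LC (T ⊓ ⨅ i, S i) T Q ∧ (T.Normal → (∀ i, Cj (P i)) → Cj Q) := by
  classical
  obtain ⟨_, _⟩ := exists_wellFoundedLT ι
  refine ⟨{g | ∃ i, g ∈ P i ∧ ∀ j < i, g ∈ S j}, ⟨inf_le_left, ?_, ?_, ?_, ?_, ?_, fun g hg e => ?_⟩, ?_⟩
  · rintro a ⟨i, a1, -⟩; exact (h i).sub a a1
  · rintro a ⟨i, a1, a2⟩ b ⟨j, b1, b2⟩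
    rcases lt_trichotomy i j with e | rfl | e
    · exact ⟨i, (h i).sr _ a1 _ (b2 i e), fun k hk => mul_mem (a2 k hk) (b2 k (hk.trans e))⟩
    · exact ⟨i, (h i).mul _ a1 _ b1, fun k hk => mul_mem (a2 k hk) (b2 k hk)⟩
    · exact ⟨j, (h j).sl _ (a2 j e) _ b1, fun k hk => mul_mem (a2 k (hk.trans e)) (b2 k hk)⟩
  · rintro s ⟨-, hs⟩ a ⟨i, a1, a2⟩
    have hs := Subgroup.mem_iInf.1 hs
    exact ⟨i, (h i).sl _ (hs i) _ a1, fun k hk => mul_mem (hs k) (a2 k hk)⟩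
  · rintro a ⟨i, a1, a2⟩ s ⟨-, hs⟩
    have hs := Subgroup.mem_iInf.1 hs
    exact ⟨i, (h i).sr _ a1 _ (hs i), fun k hk => mul_mem (a2 k hk) (hs k)⟩
  · rintro a ⟨i, a1, -⟩ ⟨-, hs⟩
    exact (h i).dis _ a1 (Subgroup.mem_iInf.1 hs i)
  · have : {i | g ∉ S i}.Nonempty := by
      by_contra k
      exact e ⟨hg, Subgroup.mem_iInf.2 fun i => by_contra fun k' => k ⟨i, k'⟩⟩
    obtain ⟨i, a1, a2⟩ := wellFounded_lt.has_min _ this
    have a3 : ∀ j < i, g ∈ S j := fun j hj => by_contra fun k => a2 j k hj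
    exact ((h i).tri g hg a1).imp (fun k => ⟨i, k, a3⟩) fun k => ⟨i, k, fun j hj => inv_mem (a3 j hj)⟩
  · rintro hT c x a ⟨i, a1, a2⟩
    exact ⟨i, c i x a a1, fun j hj => (BC.normal ⟨_, h j, c j⟩ hT).conj_mem _ (a2 j hj) x⟩

theorem RC.sInf {A : Set (Subgroup G)} (h : ∀ S ∈ A, RC S ⊤) : RC (sInf A) ⊤ := by
  choose P hP using h
  obtain ⟨Q, k, -⟩ := LC.inf (fun S : A => S.1) (fun S => P S.1 S.2) fun S => hP S.1 S.2
  exact ⟨Q, by simpa [sInf_eq_iInf'] using k⟩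

theorem BC.sInf {A : Set (Subgroup G)} {T : Subgroup G} (hT : T.Normal) (h : ∀ S ∈ A, BC S T) :
    BC (T ⊓ sInf A) T := by
  choose P hP using h
  obtain ⟨Q, k, c⟩ := LC.inf (fun S : A => S.1) (fun S => P S.1 S.2) fun S => (hP S.1 S.2).1
  exact ⟨Q, by simpa [sInf_eq_iInf'] using k, c hT fun S => (hP S.1 S.2).2⟩

section act
variable {Ω : Type*} [LinearOrder Ω] (α : G → Ω → Ω) (h1 : ∀ u, α 1 u = u)
  (hm : ∀ g h u, α (g * h) u = α g (α h u)) (mo : ∀ g, StrictMono (α g))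
include h1 hm mo

theorem lc_act (o : Ω) : ∃ S : Subgroup G, (∀ g, g ∈ S ↔ α g o = o) ∧ LC S ⊤ {g | o < α g o} := by
  have iv : ∀ g u, α g⁻¹ (α g u) = u := fun g u => by rw [← hm, inv_mul_cancel, h1]
  refine ⟨⟨⟨⟨{g | α g o = o}, fun {a b} ha hb => ?_⟩, h1 o⟩, fun {a} ha => ?_⟩, fun _ => Iff.rfl,
    le_top, fun _ _ => trivial, fun a ha b hb => ?_, fun a ha b hb => ?_, fun a ha b hb => ?_,
    fun a ha e => ne_of_gt ha e, fun g _ e => ?_⟩
  · show α _ o = o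
    rw [hm, hb, ha]
  · show α _ o = o
    conv_lhs => rw [← ha, iv]
  · show o < α _ o
    rw [hm]; exact lt_trans ha (mo a hb)
  · show o < α _ o
    rw [hm]; exact lt_of_eq_of_lt (Eq.symm ha) (mo a hb)
  · show o < α _ o
    rw [hm, hb]; exact ha
  · refine (lt_or_gt_of_ne (Ne.symm e)).imp id fun k => ?_
    have := mo g⁻¹ k
    rwa [iv] at this

theorem bad_act {o v : Ω} {f g : G} (a : o < α f o) (b : α f o < α g o) (c : α f o < v)
    (d : ∀ u < v, α g u < v) (e : v ≤ α f (α g o)) : Bad (⊤ : Subgroup G) := by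
  have iv : ∀ g u, α g⁻¹ (α g u) = u := fun g u => by rw [← hm, inv_mul_cancel, h1]
  obtain ⟨S, -, h⟩ := lc_act α h1 hm mo o
  have k : ∀ m : ℕ, α (g ^ m) (α f o) < v := fun m => by
    induction m with
    | zero => simpa [h1] using c
    | succ m ih => rw [pow_succ', hm]; exact d _ ih
  refine ⟨S, _, h, f, g, a, ?_, fun m => ?_⟩
  · have := mo f⁻¹ b
    rwa [iv, ← hm] at this
  · have := mo f⁻¹ (mo (g ^ (m + 1))⁻¹ ((k (m + 1)).trans_le e))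
    rw [iv, iv] at this
    simpa [hm] using this

end act

theorem exLO {P : Set G} (h : LC ⊥ ⊤ P) : ∃ _ : LinearOrder G, ∀ a b : G, a < b ↔ a * b⁻¹ ∈ P := by
  classical
  have asym : ∀ a b : G, a * b⁻¹ ∈ P → ¬ b * a⁻¹ ∈ P := fun a b k => by simpa using h.asym k
  have : IsStrictTotalOrder G fun a b : G => a * b⁻¹ ∈ P :=
    { trichotomous := fun a b k l => by
        by_contra e
        exact (h.tri (a * b⁻¹) trivial (by simpa [mul_inv_eq_one] using e)).elim k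
          fun k' => l (by simpa using k')
      irrefl := fun a k => asym _ _ k k
      trans := fun a b c k l => by simpa [mul_assoc] using h.mul _ k _ l }
  exact ⟨linearOrderOfSTO fun a b : G => a * b⁻¹ ∈ P, fun _ _ => Iff.rfl⟩

theorem exBO (h : BC (⊥ : Subgroup G) ⊤) :
    ∃ _ : LinearOrder G, MulLeftStrictMono G ∧ MulRightStrictMono G := by
  obtain ⟨P, h, c⟩ := h
  obtain ⟨_, k⟩ := exLO h
  refine ⟨inferInstance, ⟨fun a b d e => ?_⟩, ⟨fun a b d e => ?_⟩⟩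
  · rw [k] at e ⊢
    simpa [mul_assoc] using c a _ e
  · rw [k] at e ⊢
    simpa [mul_assoc, Function.swap] using e

end Pool.Agent.H.MP_b01f87_al
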