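import Pool.Agent.H.MP_b01f87_al.A

set_option autoImplicit false

namespace Pool.Agent.H.MP_b01f87_al

open scoped commutatorElement

universe u

variable {G : Type u} [Group G]

section ord
variable [LinearOrder G] [MulLeftStrictMono G] [MulRightStrictMono G]

local instance : MulLeftMono G := mulLeftMono_of_mulLeftStrictMono G
local instance : MulRightMono G := mulRightMono_of_mulRightStrictMono G

theorem cj_mono (x : G) : StrictMono fun a : G => x * a * x⁻¹ := fun _ _ h => by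
  simpa using h

theorem bc_conv {N : Subgroup G} (hn : N.Normal) (hc : ∀ x ∈ N, ∀ y, 1 < y → y ≤ x → y ∈ N) :
    BC N ⊤ := by
  refine ⟨{g | 1 < g ∧ g ∉ N}, ⟨le_top, fun _ _ => trivial, ?_, ?_, ?_, fun a ha => ha.2,
    fun g _ hg => ?_⟩, ?_⟩
  · rintro a ⟨a1, a2⟩ b ⟨b1, -⟩
    exact ⟨one_lt_mul'' a1 b1, fun e => a2 (hc _ e a a1 (by simpa using b1.le))⟩
  · rintro s hs a ⟨a1, a2⟩
    refine ⟨lt_of_not_ge fun e => a2 (hc _ (inv_mem hs) a a1 ?_), fun e => a2 ?_⟩
    · rwa [← mul_le_mul_iff_left s, mul_inv_cancel]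
    · simpa using mul_mem (inv_mem hs) e
  · rintro a ⟨a1, a2⟩ s hs
    refine ⟨lt_of_not_ge fun e => a2 (hc _ (inv_mem hs) a a1 ?_), fun e => a2 ?_⟩
    · rwa [← mul_le_mul_iff_right s, inv_mul_cancel]
    · simpa using mul_mem e (inv_mem hs)
  · have : g ≠ 1 := fun e => hg (e ▸ one_mem _)
    exact (lt_or_gt_of_ne this.symm).imp (fun k => ⟨k, hg⟩) fun k => ⟨by simpa using k, by simpa using hg⟩
  · rintro x a ⟨a1, a2⟩
    exact ⟨by simpa using cj_mono x a1, fun e => a2 (by simpa [mul_assoc] using hn.conj_mem _ e x⁻¹)⟩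

theorem iso' {x y : G} {k : ℕ} (h : Commute (x ^ (k + 1)) y) : Commute x y := by
  have e : (y * x * y⁻¹) ^ (k + 1) = x ^ (k + 1) := by rw [conj_pow, ← h.eq]; simp
  have : y * x * y⁻¹ = x := (pow_left_strictMono k.succ_ne_zero).injective e
  rw [mul_inv_eq_iff_eq_mul] at this
  exact this.symm

theorem rc_cent' (y : G) : RC (Subgroup.centralizer {y}) ⊤ := by
  obtain ⟨S, k, h⟩ := lc_act (fun g a : G => g * a * g⁻¹) (by simp) (by simp [mul_assoc]) cj_mono y
  have : S = Subgroup.centralizer {y} := by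
    ext g
    rw [k, Subgroup.mem_centralizer_singleton_iff, mul_inv_eq_iff_eq_mul]
  exact ⟨_, this ▸ h⟩

theorem hyp (nb : ¬ Bad (⊤ : Subgroup G)) (b : G) {d : G} (hd : 1 < d) : b * d * b⁻¹ ≤ d ^ 3 := by
  by_contra! k
  have d3 : d < d ^ 3 := by simpa using pow_lt_pow_right' hd (by norm_num : 1 < 3)
  set e := b * d * b⁻¹ with he
  have de : d < e := d3.trans k
  have c1 : b⁻¹ * d * b < d := by simpa [he, mul_assoc] using cj_mono b⁻¹ de
  have c2 : 1 < b⁻¹ * d * b := by simpa using cj_mono b⁻¹ hd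
  have c3 : 1 < b⁻¹ * (b⁻¹ * d * b) * b := by simpa using cj_mono b⁻¹ c2
  have c4 : d⁻¹ * e < d⁻¹ * (b⁻¹ * (b⁻¹ * d * b) * b) * e := by simpa using c3
  have c5 : d * d < d⁻¹ * e := by
    rw [lt_inv_mul_iff_mul_lt]; simpa [pow_succ, mul_assoc] using k
  refine nb (bad_act (fun g a : G => g * a * g⁻¹) (by simp) (by simp [mul_assoc]) cj_mono
    (o := b⁻¹ * d * b * b) (v := e * e * b) (f := b) (g := d⁻¹ * b⁻¹) ?_ ?_ ?_ (fun u hu => ?_) ?_)
  · calc _ < d * b := by simpa using c1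
      _ = _ := by group
  · calc _ = d * b := by group
      _ < d⁻¹ * (b⁻¹ * (b⁻¹ * d * b) * b) * e * b := by
        rw [mul_lt_mul_iff_right]
        exact lt_trans (by simpa using hd) (c5.trans c4)
      _ = _ := by rw [he]; group
  · calc _ = d * b := by group
      _ < _ := by
        rw [mul_lt_mul_iff_right]
        exact de.trans (by simpa using hd.trans de)
  · calc _ < d⁻¹ * b⁻¹ * (e * e * b) * (d⁻¹ * b⁻¹)⁻¹ := cj_mono _ hu
      _ = d * e * b := by rw [he]; group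
      _ < _ := by simpa using de
  · calc e * e * b = b * (d * d) * b⁻¹ * b := by rw [he]; group
      _ ≤ b * (d⁻¹ * (b⁻¹ * (b⁻¹ * d * b) * b) * e) * b⁻¹ * b := by
        rw [mul_le_mul_iff_right]
        exact (cj_mono b (c5.trans c4)).le
      _ = _ := by rw [he]; group

theorem wk1 (nb : ¬ Bad (⊤ : Subgroup G)) (b : G) {d : G} (hd : 1 < d) (k : ℕ) :
    ⁅b, d⁆ ^ k < d := by
  rcases le_or_gt ⁅b, d⁆ 1 with hc | hc
  · exact (pow_le_one' hc k).trans_lt hd
  by_contra! h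
  have key : ∀ n : ℕ, ∃ m : G, 1 < m ∧ d ≤ m ^ (3 * k) ∧ m ^ n * d ≤ b ^ n * d * (b ^ n)⁻¹ := by
    intro n
    induction n with
    | zero => exact ⟨⁅b, d⁆, hc, h.trans (pow_le_pow_right' hc.le (by omega)), by simp⟩
    | succ n ih =>
      obtain ⟨m, m1, m2, m3⟩ := ih
      have y1 : 1 < b ^ n * ⁅b, d⁆ * (b ^ n)⁻¹ := by simpa using cj_mono (b ^ n) hc
      have y2 : d ≤ (b ^ n * ⁅b, d⁆ * (b ^ n)⁻¹) ^ (3 * k) := by
        rw [pow_mul]
        refine h.trans (pow_le_pow_left' ?_ k)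
        simpa [mul_assoc] using hyp nb (b ^ n)⁻¹ y1
      refine ⟨min m (b ^ n * ⁅b, d⁆ * (b ^ n)⁻¹), lt_min m1 y1, ?_, ?_⟩
      · rcases min_choice m (b ^ n * ⁅b, d⁆ * (b ^ n)⁻¹) with e | e <;> rw [e] <;> assumption
      · calc _ = min m (b ^ n * ⁅b, d⁆ * (b ^ n)⁻¹) * (min m (b ^ n * ⁅b, d⁆ * (b ^ n)⁻¹) ^ n * d) := by
              rw [pow_succ', mul_assoc]
          _ ≤ (b ^ n * ⁅b, d⁆ * (b ^ n)⁻¹) * (b ^ n * d * (b ^ n)⁻¹) :=
              mul_le_mul' (min_le_right _ _) (le_trans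
                (mul_le_mul_left (pow_le_pow_left' (min_le_left _ _) n) _) m3)
          _ = _ := by rw [commutatorElement_def]; group
  obtain ⟨m, -, m2, m3⟩ := key (3 * k * 3)
  have := (m3.trans (hyp nb _ hd))
  rw [pow_mul] at this
  have := (mul_le_mul_left (pow_le_pow_left' m2 3) d).trans this
  exact absurd hd (by simpa using this)

theorem wk2 (nb : ¬ Bad (⊤ : Subgroup G)) (b : G) {d : G} (hd : 1 < d) (k : ℕ) :
    ⁅b, d⁆⁻¹ ^ k < d := by
  rcases le_or_gt 1 ⁅b, d⁆ with hc | hc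
  · exact (pow_le_one' (Left.inv_le_one_iff.2 hc) k).trans_lt hd
  have := cj_mono b (wk1 nb b⁻¹ hd k)
  have e : b * ⁅b⁻¹, d⁆ * b⁻¹ = ⁅b, d⁆⁻¹ := by simp only [commutatorElement_def]; group
  simp only [← conj_pow, e] at this
  refine this.trans ?_
  calc _ = ⁅b, d⁆ * d := by rw [commutatorElement_def]; group
    _ < 1 * d := by simpa using hc
    _ = d := one_mul d

/-- The elements infinitely smaller than `w`. -/
def Sm {w : G} (hw : 1 < w) : Subgroup G where
  carrier := {x | ∀ k : ℕ, x ^ k < w ∧ x⁻¹ ^ k < w}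
  one_mem' := by simpa using hw
  inv_mem' := fun h k => by simpa using (h k).symm
  mul_mem' := by
    have key : ∀ a b : G, (∀ k : ℕ, a ^ k < w) → (∀ k : ℕ, b ^ k < w) → ∀ k : ℕ, (a * b) ^ k < w := by
      intro a b ha hb k
      refine (pow_le_pow_left' (mul_le_mul' (le_max_left a b) (le_max_right a b)) k).trans_lt ?_
      rw [← pow_two, ← pow_mul]
      rcases max_choice a b with e | e <;> rw [e]
      exacts [ha _, hb _]
    intro a b ha hb k
    exact ⟨key _ _ (fun k => (ha k).1) (fun k => (hb k).1) k,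
      by rw [mul_inv_rev]; exact key _ _ (fun k => (hb k).2) (fun k => (ha k).2) k⟩

theorem Sm.nm (nb : ¬ Bad (⊤ : Subgroup G)) {w : G} (hw : 1 < w) : (Sm hw).Normal := by
  have key : ∀ a x : G, (∀ k : ℕ, a ^ k < w) → ∀ k : ℕ, (x * a * x⁻¹) ^ k < w := by
    intro a x ha k
    rcases le_or_gt a 1 with h | h
    · exact (pow_le_one' (by simpa using (cj_mono x).monotone h) k).trans_lt hw
    · refine (pow_le_pow_left' (hyp nb x h) k).trans_lt ?_
      rw [← pow_mul]; exact ha _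
  exact ⟨fun a ha x k => ⟨key _ _ (fun k => (ha k).1) k, by
    simpa [mul_assoc] using key _ x (fun k => (ha k).2) k⟩⟩

theorem Sm.cv {w : G} (hw : 1 < w) : ∀ x ∈ Sm hw, ∀ y, 1 < y → y ≤ x → y ∈ Sm hw :=
  fun _ hx _ a b k => ⟨(pow_le_pow_left' b k).trans_lt (hx k).1,
    (pow_le_one' (by simpa using a.le) k).trans_lt hw⟩

theorem Sm.bc (nb : ¬ Bad (⊤ : Subgroup G)) {w : G} (hw : 1 < w) : BC (Sm hw) ⊤ :=
  bc_conv (Sm.nm nb hw) (Sm.cv hw)

theorem Sm.self {w : G} (hw : 1 < w) : w ∉ Sm hw := fun h => by simpa using (h 1).1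

theorem Sm.comm (nb : ¬ Bad (⊤ : Subgroup G)) {w : G} (hw : 1 < w) {y : G} {j : ℕ}
    (a : y ≤ w ^ j) (b : y⁻¹ ≤ w ^ j) (x : G) : ⁅x, y⁆ ∈ Sm hw := by
  have key : ∀ y : G, 1 < y → y ≤ w ^ j → ⁅x, y⁆ ∈ Sm hw := fun y hy a k => by
    constructor <;> by_contra! e
    · have := (wk1 nb x hy (k * j)).trans_le a
      rw [pow_mul] at this
      exact absurd (pow_le_pow_left' e j) (not_le.2 this)
    · have := (wk2 nb x hy (k * j)).trans_le a
      rw [pow_mul] at this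
      exact absurd (pow_le_pow_left' e j) (not_le.2 this)
  rcases lt_trichotomy 1 y with h | rfl | h
  · exact key y h a
  · simp
  · have := (Sm.nm nb hw).conj_mem _ (inv_mem (key y⁻¹ (by simpa using h) b)) y
    convert this using 1
    simp only [commutatorElement_def]; group

end ord

theorem iso (h : BC (⊥ : Subgroup G) ⊤) {x y : G} {k : ℕ} (e : Commute (x ^ (k + 1)) y) :
    Commute x y := by
  obtain ⟨_, _, _⟩ := exBO h; exact iso' e

theorem rc_cent (h : BC (⊥ : Subgroup G) ⊤) (y : G) : RC (Subgroup.centralizer {y}) ⊤ := by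
  obtain ⟨_, _, _⟩ := exBO h; exact rc_cent' y

theorem iso_mod {N : Subgroup G} (h : BC N ⊤) {x y : G} {k : ℕ} (e : ⁅x ^ (k + 1), y⁆ ∈ N) :
    ⁅x, y⁆ ∈ N := by
  have := h.normal inferInstance
  rw [← QuotientGroup.eq_one_iff] at e ⊢
  change QuotientGroup.mk' N _ = 1 at e ⊢
  rw [map_commutatorElement, commutatorElement_eq_one_iff_commute] at e ⊢
  exact iso h.quot (by rwa [map_pow] at e)

end Pool.Agent.H.MP_b01f87_al
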