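import Pool.Agent.H.MP_b01f87_al.B

set_option autoImplicit false

namespace Pool.Agent.H.MP_b01f87_al

open scoped commutatorElement

universe u

variable {G : Type u} [Group G]

theorem ex_hom {V : Type*} [AddCommGroup V] {v : V} (h : ∀ n : ℤ, n • v = 0 → n = 0) :
    ∃ ψ : V →+ ℚ, ψ v = 1 := by
  obtain ⟨ψ, k⟩ := (Module.Baer.of_divisible ℚ).extension_property_addMonoidHom
    (zmultiplesHom V v) ((injective_iff_map_eq_zero _).2 fun n e => h n e) (Int.castAddHom ℚ)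
  exact ⟨ψ, by simpa using DFunLike.congr_fun k 1⟩

theorem lcQ : LC (⊥ : Subgroup (Multiplicative ℚ)) ⊤ {x | 1 < x} :=
  ⟨le_top, fun _ _ => trivial, fun a ha b hb => one_lt_mul'' (a := a) (b := b) ha hb, by simp, by simp,
    fun _ ha e => ne_of_gt ha e, fun g _ e => (lt_or_gt_of_ne (Ne.symm e)).imp id fun k => by simpa using k⟩

theorem bc_cent {N D : Subgroup G} (le : N ≤ D) (hN : N.Normal) (hD : D.Normal)
    (c : ∀ x : G, ∀ d ∈ D, ⁅x, d⁆ ∈ N) (tf : ∀ d ∈ D, ∀ k : ℕ, d ^ (k + 1) ∈ N → d ∈ N) : BC N D := by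
  have := BC.sInf (A := {S | BC S D ∧ N ≤ S}) hD fun S hS => hS.1
  suffices e : D ⊓ sInf {S | BC S D ∧ N ≤ S} = N by rwa [e] at this
  refine le_antisymm (fun d ⟨hd, h⟩ => by_contra fun e => ?_) (le_inf le (le_sInf fun S hS => hS.2))
  have := hN.subgroupOf D
  let π := QuotientGroup.mk' (N.subgroupOf D)
  have hπ : ∀ x : D, π x = 1 ↔ x.1 ∈ N := fun x => QuotientGroup.eq_one_iff x
  let _ : CommGroup (D ⧸ N.subgroupOf D) := { QuotientGroup.Quotient.group _ with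
    mul_comm := fun a b => by
      obtain ⟨a, rfl⟩ := QuotientGroup.mk'_surjective _ a
      obtain ⟨b, rfl⟩ := QuotientGroup.mk'_surjective _ b
      rw [← commutatorElement_eq_one_iff_mul_comm, ← map_commutatorElement]
      exact (hπ _).2 (c _ _ b.2) }
  obtain ⟨ψ, k⟩ := ex_hom (V := Additive (D ⧸ N.subgroupOf D)) (v := .ofMul (π ⟨d, hd⟩)) fun n hn => by
    have : d ^ n ∈ N := (hπ (⟨d, hd⟩ ^ n)).1 (by rw [map_zpow]; exact hn)
    by_contra n0
    obtain ⟨n, rfl | rfl⟩ := n.eq_nat_or_neg <;> obtain ⟨n, rfl⟩ : ∃ i, n = i + 1 := ⟨n - 1, by omega⟩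
    · exact e (tf d hd n (by rwa [zpow_natCast] at this))
    · exact e (tf d hd n (by rwa [zpow_neg, inv_mem_iff, zpow_natCast] at this))
  let φ : D →* Multiplicative ℚ := (AddMonoidHom.toMultiplicativeRight ψ).comp π
  have l := (lcQ.comap φ).map D.subtype (ker_sub _ _)
  rw [Subgroup.comap_top, map_sub] at l
  have nl : N ≤ ((⊥ : Subgroup _).comap φ).map D.subtype := fun n hn =>
    ⟨⟨n, le hn⟩, by simp [φ, (hπ ⟨n, le hn⟩).2 hn], rfl⟩
  obtain ⟨d', a, rfl⟩ := Subgroup.mem_sInf.1 h _ ⟨⟨_, l, fun x a ha => by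
    simpa [commutatorElement_def] using l.sl _ (nl (c x a (l.sub a ha))) _ ha⟩, nl⟩
  have : ψ (.ofMul (π d')) = 0 := by simpa [φ] using a
  exact zero_ne_one (this.symm.trans k)

theorem bc_nil (G : Type u) [Group G] [Group.IsNilpotent G] :
    (∀ x ∈ Subgroup.center G, ∀ k : ℕ, x ^ (k + 1) = 1 → x = 1) → BC (⊥ : Subgroup G) ⊤ := by
  apply Group.nilpotent_center_quotient_ind (P := fun G _ _ =>
    (∀ x ∈ Subgroup.center G, ∀ k : ℕ, x ^ (k + 1) = 1 → x = 1) → BC (⊥ : Subgroup G) ⊤)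
  · intro G _ _ _
    exact ⟨∅, ⟨le_top, by simp, by simp, by simp, by simp, by simp,
      fun g _ e => (e (Subsingleton.elim g 1)).elim⟩, by simp [Cj]⟩
  · intro G _ _ ih tf
    refine BC.lex (T := Subgroup.center G) (bc_cent bot_le inferInstance inferInstance
      (fun x d hd => commutatorElement_eq_one_iff_mul_comm.2 (Subgroup.mem_center_iff.1 hd x)) tf) ?_
    have := (ih fun x hx k e => ?_).comap (QuotientGroup.mk' _)
    · simpa using this
    obtain ⟨x, rfl⟩ := QuotientGroup.mk'_surjective _ x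
    refine (QuotientGroup.eq_one_iff x).2 (Subgroup.mem_center_iff.2 fun g => ?_)
    have c : ⁅x, g⁆ ∈ Subgroup.center G := (QuotientGroup.eq_one_iff _).1 (by
      change QuotientGroup.mk' _ _ = 1
      rw [map_commutatorElement, commutatorElement_eq_one_iff_mul_comm]
      exact (Subgroup.mem_center_iff.1 hx _).symm)
    have p : ∀ n : ℕ, x ^ n * g = ⁅x, g⁆ ^ n * g * x ^ n := fun n => by
      induction n with
      | zero => simp
      | succ n ih =>
        calc _ = x * ⁅x, g⁆ ^ n * g * x ^ n := by rw [pow_succ', mul_assoc, ih]; group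
          _ = ⁅x, g⁆ ^ n * (⁅x, g⁆ * g * x) * x ^ n := by
            rw [Subgroup.mem_center_iff.1 (pow_mem c n) x]; simp [commutatorElement_def, mul_assoc]
          _ = _ := by rw [pow_succ, pow_succ' x]; simp [mul_assoc]
    have z : x ^ (k + 1) ∈ Subgroup.center G := (QuotientGroup.eq_one_iff _).1 (by rw [← e]; rfl)
    have := p (k + 1)
    rw [mul_assoc, Subgroup.mem_center_iff.1 z g, right_eq_mul] at this
    exact (commutatorElement_eq_one_iff_mul_comm.1 (tf _ c k this)).symm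

theorem bc_nil_mod {W : Subgroup G} (hn : W.Normal) {c : ℕ}
    (h : (⊤ : Subgroup G).lowerCentralSeries c ≤ W) (tf : ∀ x, ∀ k : ℕ, x ^ (k + 1) ∈ W → x ∈ W) :
    BC W ⊤ := by
  have : Group.IsNilpotent (G ⧸ W) := Subgroup.nilpotent_iff_lowerCentralSeries.2 ⟨c, by
    rw [← Subgroup.map_top_of_surjective _ (QuotientGroup.mk'_surjective W),
      ← Subgroup.map_lowerCentralSeries, Subgroup.map_eq_bot_iff, QuotientGroup.ker_mk']
    exact h⟩
  have := (bc_nil (G ⧸ W) fun x _ k e => ?_).comap (QuotientGroup.mk' _)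
  · simpa using this
  obtain ⟨x, rfl⟩ := QuotientGroup.mk'_surjective _ x
  exact (QuotientGroup.eq_one_iff x).2 (tf x k ((QuotientGroup.eq_one_iff _).1 (by rw [← e]; rfl)))

theorem exI (h : BC (⊥ : Subgroup G) ⊤) {z : G} (hz : z ∈ Subgroup.center G) :
    ∃ I : Subgroup G, I ≤ Subgroup.center G ∧ ∀ x, x ∈ I ↔ ∃ (k : ℕ) (l : ℤ), x ^ (k + 1) = z ^ l := by
  have c : ∀ x : G, (∃ (k : ℕ) (l : ℤ), x ^ (k + 1) = z ^ l) → x ∈ Subgroup.center G := by
    rintro x ⟨k, l, e⟩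
    exact Subgroup.mem_center_iff.2 fun g => (iso h (k := k)
      (e ▸ (Subgroup.mem_center_iff.1 (zpow_mem hz l) g).symm)).eq.symm
  refine ⟨⟨⟨⟨{x | ∃ (k : ℕ) (l : ℤ), x ^ (k + 1) = z ^ l}, fun {a b} ha hb => ?_⟩, 0, 0, by simp⟩,
    fun {a} ⟨k, l, e⟩ => ⟨k, -l, by rw [inv_pow, e, zpow_neg]⟩⟩, c, fun _ => Iff.rfl⟩
  have cm : Commute a b := Subgroup.mem_center_iff.1 (c b hb) a
  obtain ⟨k, l, e⟩ := ha
  obtain ⟨m, n, e'⟩ := hb
  refine ⟨k * m + k + m, l * (m + 1 : ℕ) + n * (k + 1 : ℕ), ?_⟩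
  rw [cm.mul_pow, zpow_add, zpow_mul, zpow_mul, ← e, ← e', zpow_natCast, zpow_natCast, ← pow_mul,
    ← pow_mul]
  congr 2 <;> ring

end Pool.Agent.H.MP_b01f87_al
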