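import Pool.Agent.H.MP_b01f87_al.C

set_option autoImplicit false

namespace Pool.Agent.H.MP_b01f87_al

open scoped commutatorElement

universe u

variable {G : Type u} [Group G]

theorem bc_I' [LinearOrder G] [MulLeftStrictMono G] [MulRightStrictMono G]
    (nb : ¬ Bad (⊤ : Subgroup G)) {z : G} (hz : z ∈ Subgroup.center G) (z1 : 1 < z) {I : Subgroup G}
    (hc : I ≤ Subgroup.center G) (hI : ∀ x, x ∈ I ↔ ∃ (k : ℕ) (l : ℤ), x ^ (k + 1) = z ^ l) :
    BC I ⊤ := by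
  have := mulLeftMono_of_mulLeftStrictMono G
  have := mulRightMono_of_mulRightStrictMono G
  have zc : ∀ (l : ℤ) g, g * z ^ l = z ^ l * g := fun l g => Subgroup.mem_center_iff.1 (zpow_mem hz l) g
  have := Sm.nm nb z1
  let π := QuotientGroup.mk' (Sm z1)
  have sj : Function.Surjective π := QuotientGroup.mk'_surjective _
  obtain ⟨J', c', hJ'⟩ := exI (Sm.bc nb z1).quot (z := π z) (Subgroup.mem_center_iff.2 fun g => by
    obtain ⟨g, rfl⟩ := sj g
    rw [← map_mul, ← map_mul, Subgroup.mem_center_iff.1 hz])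
  have hJ : ∀ x, x ∈ J'.comap π ↔ ∃ (k : ℕ) (l : ℤ), ∃ c ∈ Sm z1, x ^ (k + 1) = c * z ^ l := fun x => by
    rw [Subgroup.mem_comap, hJ']
    refine exists₂_congr fun k l => ?_
    rw [← map_pow, ← map_zpow, eq_comm, QuotientGroup.mk'_eq_mk']
    exact ⟨fun ⟨c, a, b⟩ => ⟨c, a, by rw [zc, b]⟩, fun ⟨c, a, b⟩ => ⟨c, a, by rw [← zc, b]⟩⟩
  have Jn : (J'.comap π).Normal := Subgroup.Normal.comap ⟨fun n hn g => by
    rwa [Subgroup.mem_center_iff.1 (c' hn) g, mul_inv_cancel_right]⟩ π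
  have CJ : Sm z1 ≤ J'.comap π := fun x hx => (hJ x).2 ⟨0, 0, x, hx, by simp⟩
  let D : Subgroup G :=
    { carrier := {x | ∃ j : ℕ, x ≤ z ^ j ∧ x⁻¹ ≤ z ^ j}
      one_mem' := ⟨0, by simp⟩
      inv_mem' := fun ⟨j, a, b⟩ => ⟨j, b, by simpa using a⟩
      mul_mem' := fun ⟨j, a, b⟩ ⟨i, c, d⟩ => ⟨j + i, by rw [pow_add]; exact mul_le_mul' a c,
        by rw [add_comm, pow_add, mul_inv_rev]; exact mul_le_mul' d b⟩ }
  have Dn : D.Normal := ⟨fun x ⟨j, a, b⟩ g => ⟨j, by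
      simpa [← zpow_natCast, zc] using (cj_mono g).monotone a,
    by simpa [← zpow_natCast, zc, mul_assoc, ← zc _ g⁻¹] using (cj_mono g).monotone b⟩⟩
  have Db : BC D ⊤ := bc_conv Dn fun x ⟨j, a, _⟩ y c d => ⟨j, d.trans a,
    (Left.inv_le_one_iff.2 c.le).trans (one_le_pow_of_one_le' z1.le j)⟩
  have zD : z ∈ D := ⟨1, by simp, by simpa using (Left.inv_le_one_iff.2 z1.le).trans z1.le⟩
  have JD : J'.comap π ≤ D := fun x hx => by
    obtain ⟨k, l, c, a, e⟩ := (hJ x).1 hx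
    have cD : c ∈ D := ⟨1, by simpa using (a 1).1.le, by simpa using (a 1).2.le⟩
    exact Db.rc.root trivial (e ▸ mul_mem cD (zpow_mem zD l))
  have Jb : BC (J'.comap π) D := bc_cent JD Jn Dn (fun x d ⟨j, a, b⟩ => CJ (Sm.comm nb z1 a b x))
    fun d _ m hd => by
      obtain ⟨k, l, c, a, e⟩ := (hJ _).1 hd
      exact (hJ _).2 ⟨m * k + m + k, l, c, a, by rw [← e, ← pow_mul]; congr 1; ring⟩
  refine BC.lex (BC.lex ?_ Jb) Db
  have pw : ∀ {x c : G} {k : ℕ} {l : ℤ} (m : ℕ), x ^ (k + 1) = c * z ^ l →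
      x ^ (k * m + k + m + 1) = c ^ (m + 1) * z ^ (l * (m + 1 : ℕ)) := fun {x c k l} m e => by
    rw [zpow_mul, zpow_natCast, ← Commute.mul_pow (zc l c), ← e, ← pow_mul]
    congr 1; ring
  have sl : ∀ s ∈ I, ∀ a ∈ {x : G | ∃ (k : ℕ) (l : ℤ), ∃ c ∈ Sm z1, 1 < c ∧ x ^ (k + 1) = c * z ^ l},
      s * a ∈ {x : G | ∃ (k : ℕ) (l : ℤ), ∃ c ∈ Sm z1, 1 < c ∧ x ^ (k + 1) = c * z ^ l} := by
    rintro s hs a ⟨k, l, c, c1, c2, e⟩
    obtain ⟨m, n, e'⟩ := (hI s).1 hs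
    refine ⟨k * m + k + m, l * (m + 1 : ℕ) + n * (k + 1 : ℕ), _, pow_mem c1 (m + 1),
      one_lt_pow' c2 m.succ_ne_zero, ?_⟩
    have := pw (c := 1) k (by rwa [one_mul])
    rw [← Subgroup.mem_center_iff.1 (hc hs), Commute.mul_pow (Subgroup.mem_center_iff.1 (hc hs) a),
      pw m e, show k * m + k + m = m * k + m + k by ring, this, zpow_add, one_pow, one_mul, mul_assoc]
  refine ⟨{x | ∃ (k : ℕ) (l : ℤ), ∃ c ∈ Sm z1, 1 < c ∧ x ^ (k + 1) = c * z ^ l}, ⟨fun x hx => ?_,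
    fun x ⟨k, l, c, a, _, e⟩ => (hJ x).2 ⟨k, l, c, a, e⟩, ?_, sl, fun a ha s hs => ?_, ?_,
    fun x hx e => ?_⟩, ?_⟩
  · obtain ⟨k, l, e⟩ := (hI x).1 hx
    exact (hJ x).2 ⟨k, l, 1, one_mem _, by rwa [one_mul]⟩
  · rintro x ⟨k, l, c, c1, c2, e⟩ y ⟨m, n, d, d1, d2, e'⟩
    have e1 := pw m e
    have e2 := pw k e'
    rw [show m * k + m + k = k * m + k + m by ring] at e2
    have c3 := one_lt_pow' c2 m.succ_ne_zero
    have c4 := pow_mem c1 (m + 1)
    have d3 := one_lt_pow' d2 k.succ_ne_zero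
    have d4 := pow_mem d1 (k + 1)
    generalize k * m + k + m = K, c ^ (m + 1) = c, d ^ (k + 1) = d, l * (m + 1 : ℕ) = l,
      n * (k + 1 : ℕ) = n at e1 e2 c3 c4 d3 d4
    have cm : ⁅x, y⁆ ∈ Sm c3 := iso_mod (Sm.bc nb c3) (k := K) (by
      have := inv_mem (Sm.comm nb c3 (j := 1) (y := c) (by simp)
        (by simpa using (Left.inv_le_one_iff.2 c3.le).trans c3.le) y)
      convert this using 1
      rw [e1, commutatorElement_def, commutatorElement_def, mul_assoc c, ← zc]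
      group)
    have := Sm.nm nb c3
    have q : (x * y) ^ (K + 1) * (x ^ (K + 1) * y ^ (K + 1))⁻¹ ∈ Sm c3 := by
      rw [← QuotientGroup.eq_one_iff] at cm ⊢
      change QuotientGroup.mk' _ _ = 1 at cm ⊢
      rw [map_commutatorElement, commutatorElement_eq_one_iff_commute] at cm
      simp only [map_mul, map_inv, map_pow, cm.mul_pow, mul_inv_cancel]
    generalize hδ : (x * y) ^ (K + 1) * (x ^ (K + 1) * y ^ (K + 1))⁻¹ = δ at q
    have cz : c < z := by simpa using (c4 1).1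
    refine ⟨K, l + n, δ * c * d, mul_mem (mul_mem (fun i => ⟨(q i).1.trans cz, (q i).2.trans cz⟩) c4) d4,
      one_lt_mul'' (by simpa [inv_lt_iff_one_lt_mul'] using (q 1).2) d3, ?_⟩
    rw [mul_inv_eq_iff_eq_mul] at hδ
    rw [hδ, e1, e2, zpow_add, mul_assoc c, ← mul_assoc (z ^ l), ← zc l d]
    simp only [mul_assoc]
  · rw [Subgroup.mem_center_iff.1 (hc hs)]; exact sl s hs a ha
  · rintro x ⟨k, l, c, c1, c2, e⟩ hx
    obtain ⟨m, n, e'⟩ := (hI x).1 hx
    have e1 := pw m e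
    have e2 := pw (c := 1) k (by rwa [one_mul])
    rw [show m * k + m + k = k * m + k + m by ring, e1, one_pow, one_mul, ← eq_mul_inv_iff_mul_eq,
      ← zpow_sub] at e2
    have c3 := one_lt_pow' c2 m.succ_ne_zero
    refine Sm.self z1 (Sm.cv z1 _ (pow_mem c1 (m + 1)) z z1 ?_)
    rw [e2] at c3 ⊢
    generalize n * (k + 1 : ℕ) - l * (m + 1 : ℕ) = i at c3
    obtain ⟨i, rfl | rfl⟩ := i.eq_nat_or_neg
    · rcases i with _ | i
      · simp at c3
      · rw [zpow_natCast]; simpa [pow_succ] using one_le_pow_of_one_le' z1.le i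
    · exact absurd (one_le_pow_of_one_le' z1.le i) (by simpa using c3)
  · obtain ⟨k, l, c, a, b⟩ := (hJ x).1 hx
    have : 1 ≠ c := fun k' => e ((hI x).2 ⟨k, l, by rw [b, ← k', one_mul]⟩)
    refine (lt_or_gt_of_ne this).imp (fun k' => ⟨k, l, c, a, k', b⟩) fun k' =>
      ⟨k, -l, c⁻¹, inv_mem a, by simpa using k', by rw [inv_pow, b, zc, mul_inv_rev, zpow_neg]⟩
  · rintro g x ⟨k, l, c, c1, c2, e⟩
    exact ⟨k, l, g * c * g⁻¹, (Sm.nm nb z1).conj_mem _ c1 g, by simpa using cj_mono g c2,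
      by rw [conj_pow, e, mul_assoc _ g⁻¹, zc l g⁻¹]; simp only [mul_assoc]⟩

theorem bc_I (h : BC (⊥ : Subgroup G) ⊤) (nb : ¬ Bad (⊤ : Subgroup G)) {z : G}
    (hz : z ∈ Subgroup.center G) : ∃ I : Subgroup G, I ≤ Subgroup.center G ∧ BC I ⊤ ∧
      ∀ x, x ∈ I ↔ ∃ (k : ℕ) (l : ℤ), x ^ (k + 1) = z ^ l := by
  obtain ⟨I, a, b⟩ := exI h hz
  refine ⟨I, a, ?_, b⟩
  obtain ⟨_, _, _⟩ := exBO h
  rcases lt_trichotomy 1 z with k | rfl | k
  · exact bc_I' nb hz k a b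
  · convert h
    exact eq_bot_iff.2 fun x hx => by
      obtain ⟨k, l, e⟩ := (b x).1 hx
      exact h.rc.root trivial (n := k) (by simpa using e)
  · refine bc_I' nb (inv_mem hz) (by simpa using k) a fun x => (b x).trans ?_
    constructor <;> rintro ⟨k, l, e⟩ <;> exact ⟨k, -l, by simp [e]⟩

/-- Left normed commutators. -/
def Cm (X : Set G) : ℕ → Set G
  | 0 => X
  | n + 1 => Set.image2 (fun y x => ⁅y, x⁆) (Cm X n) X

theorem Cm.fin {X : Set G} (h : X.Finite) : ∀ n, (Cm X n).Finite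
  | 0 => h
  | n + 1 => (Cm.fin h n).image2 _ h

theorem Cm.img {G' : Type u} [Group G'] (f : G →* G') (X : Set G) : ∀ n, Cm (f '' X) n = f '' Cm X n
  | 0 => rfl
  | n + 1 => by
    rw [Cm, Cm.img f X n, Cm, Set.image_image2, Set.image2_image_left, Set.image2_image_right]
    simp only [map_commutatorElement]

theorem Cm.lcs {X : Set G} {H : Subgroup G} (h : X ⊆ H) : ∀ n, Cm X n ⊆ H.lowerCentralSeries n
  | 0 => h
  | n + 1 => by
    rintro _ ⟨y, a, x, b, rfl⟩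
    exact Subgroup.commutator_mem_commutator (Cm.lcs h n a) (h b)

/-- No proper relatively convex subgroup contains `X`. -/
def Gen (X : Set G) : Prop := ∀ S : Subgroup G, RC S ⊤ → X ⊆ S → S = ⊤

theorem Gen.img {G' : Type u} [Group G'] {X : Set G} (h : Gen X) (f : G →* G')
    (sj : Function.Surjective f) : Gen (f '' X) := fun S a b => by
  have := h _ (a.comap f) fun x hx => b ⟨x, hx, rfl⟩
  exact eq_top_iff.2 fun x _ => by
    obtain ⟨x, rfl⟩ := sj x
    exact (this ▸ Subgroup.mem_top x : x ∈ S.comap f)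

theorem kill (n : ℕ) : ∀ (G : Type u) [Group G], BC (⊥ : Subgroup G) ⊤ → ¬ Bad (⊤ : Subgroup G) →
    ∀ Y : Fin n → G, (∀ i, Y i ∈ Subgroup.center G) → ∃ (G' : Type u) (_ : Group G') (π : G →* G'),
      Function.Surjective π ∧ BC (⊥ : Subgroup G') ⊤ ∧ (∀ i, π (Y i) = 1) ∧
        (Group.IsNilpotent G' → Group.IsNilpotent G) := by
  induction n with
  | zero => exact fun G _ h _ Y _ => ⟨G, inferInstance, MonoidHom.id G, fun x => ⟨x, rfl⟩, h, by simp, id⟩
  | succ n ih =>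
    intro G _ h nb Y c
    obtain ⟨I, a, b, d⟩ := bc_I h nb (c 0)
    have := b.normal inferInstance
    have sj := QuotientGroup.mk'_surjective I
    obtain ⟨G', _, π, p1, p2, p3, p4⟩ := ih (G ⧸ I) b.quot (fun k => nb (k.comap _ sj))
      (fun i => QuotientGroup.mk' I (Y i.succ)) fun i => Subgroup.mem_center_iff.2 fun g => by
        obtain ⟨g, rfl⟩ := sj g
        rw [← map_mul, ← map_mul, Subgroup.mem_center_iff.1 (c _)]
    refine ⟨G', inferInstance, π.comp (QuotientGroup.mk' I), p1.comp sj, p2, fun i => ?_, fun k => ?_⟩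
    · refine Fin.cases ?_ p3 i
      have : QuotientGroup.mk' I (Y 0) = 1 := (QuotientGroup.eq_one_iff _).2 ((d _).2 ⟨0, 1, by simp⟩)
      rw [MonoidHom.comp_apply, this, map_one]
    · have := p4 k
      exact Subgroup.isNilpotent_of_ker_le_center (QuotientGroup.mk' I) (by simpa using a)

theorem nil_gen (n : ℕ) : ∀ (G : Type u) [Group G], BC (⊥ : Subgroup G) ⊤ → ¬ Bad (⊤ : Subgroup G) →
    ∀ X : Set G, X.Finite → Gen X → Cm X n ⊆ {1} → Group.IsNilpotent G := by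
  induction n with
  | zero =>
    intro G _ h _ X _ g c
    have : Subsingleton G := Subgroup.subsingleton_iff.1 (subsingleton_of_bot_eq_top (g ⊥ h.rc c))
    infer_instance
  | succ n ih =>
    intro G _ h nb X f g c
    obtain ⟨m, Y, -, hY⟩ := (Cm.fin f n).fin_param
    obtain ⟨G', _, π, p1, p2, p3, p4⟩ := kill m G h nb Y fun i => by
      have := g _ (rc_cent h (Y i)) fun x hx => Subgroup.mem_centralizer_singleton_iff.2
        (commutatorElement_eq_one_iff_mul_comm.1 (c ⟨_, hY ▸ Set.mem_range_self i, x, hx, rfl⟩)).symm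
      exact Subgroup.mem_center_iff.2 fun x => Subgroup.mem_centralizer_singleton_iff.1
        (this ▸ Subgroup.mem_top x)
    refine p4 (ih G' p2 (fun k => nb (k.comap _ p1)) (π '' X) (f.image _) (g.img π p1) ?_)
    rw [Cm.img, ← hY]
    rintro _ ⟨_, ⟨i, rfl⟩, rfl⟩
    exact p3 i

end Pool.Agent.H.MP_b01f87_al
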