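import Pool.Agent.H.MP_b01f87_al.D

set_option autoImplicit false

namespace Pool.Agent.H.MP_b01f87_al

open Polynomial

theorem ex_tr : ∃ t : ℝ, 3 < t ∧ Transcendental ℤ t := by
  have h := transcendental_liouvilleNumber (m := 2) le_rfl
  by_cases h0 : liouvilleNumber ((2 : ℕ) : ℝ) = 0
  · exact absurd (h0 ▸ isAlgebraic_zero) h
  refine ⟨_, ?_, h.aeval (X ^ 2 + C 3) (by rw [natDegree_X_pow_add_C]; norm_num)
    (by rw [(monic_X_pow_add_C _ two_ne_zero).leadingCoeff]; exact one_mem _)⟩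
  rw [map_add, aeval_C]
  simpa using pow_pos (abs_pos.2 h0) 2

theorem ex_aff {S V : Type*} [Group S] [AddCommGroup V] (ρ : S →* Module.End ℤ V) (τ : S → ℚ)
    (ta : ∀ s t, τ (s * t) = τ s + τ t) (tk : ∀ s, τ s = 0 → ρ s = 1) {g : S} (tg : 0 < τ g) {a : V}
    (ha : ∀ s, 0 < τ s → ∀ p : ℤ[X], aeval (ρ s) p a = 0 → p = 0) :
    ∃ t : ℝ, 3 < t ∧ ∃ ψ : V →+ ℝ, ψ a = 1 ∧ ∀ s v, ψ (ρ s v) = t ^ (τ s : ℝ) * ψ v := by
  obtain ⟨t, t3, tr⟩ := ex_tr
  have t0 : 0 < t := by linarith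
  let τ' : S →* Multiplicative ℚ := MonoidHom.mk' (fun s => .ofAdd (τ s)) fun s t => by rw [ta]; rfl
  have tz : ∀ s (n : ℤ), τ (s ^ n) = n * τ s := fun s n => by
    simpa [τ'] using congrArg Multiplicative.toAdd (map_zpow τ' s n)
  have t1 : τ 1 = 0 := by simpa using tz 1 0
  let x : S →* Module.End ℤ V × ℝ :=
    { toFun := fun s => (ρ s, t ^ (τ s : ℝ))
      map_one' := by simp [t1, Prod.ext_iff]
      map_mul' := fun s s' => by simp [ta, Real.rpow_add t0] }
  have xe : ∀ s s', τ s = τ s' → x s = x s' := fun s s' e => by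
    have : ρ (s * s'⁻¹) = 1 := tk _ (by rw [ta, ← zpow_neg_one, tz, e]; simp)
    have : ρ s = ρ s' := by rw [← inv_mul_cancel_right s s', map_mul, this, one_mul]
    simp [x, this, e]
  have cm : ∀ s s', 0 < τ s → 0 < τ s' → ∃ u, 0 < τ u ∧ ∃ n n' : ℕ, x s = x u ^ n ∧ x s' = x u ^ n' := by
    intro s s' h h'
    obtain ⟨D, hD, a, b, ea, eb⟩ : ∃ D : ℚ, 0 < D ∧ ∃ a b : ℕ, τ s = a * D ∧ τ s' = b * D := by
      refine ⟨1 / ((τ s).den * (τ s').den), by positivity, (τ s).num.natAbs * (τ s').den,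
        (τ s').num.natAbs * (τ s).den, ?_, ?_⟩
      · have : ((τ s).num.natAbs : ℚ) = τ s * (τ s).den := by
          rw [Rat.mul_den_eq_num, ← Int.cast_natCast, Int.natAbs_of_nonneg (Rat.num_nonneg.2 h.le)]
        push_cast; rw [this]; field_simp
      · have : ((τ s').num.natAbs : ℚ) = τ s' * (τ s').den := by
          rw [Rat.mul_den_eq_num, ← Int.cast_natCast, Int.natAbs_of_nonneg (Rat.num_nonneg.2 h'.le)]
        push_cast; rw [this]; field_simp
    have e : τ (s ^ a.gcdA b * s' ^ a.gcdB b) = a.gcd b * D := by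
      rw [ta, tz, tz, ea, eb, ← Int.cast_natCast (a.gcd b), Nat.gcd_eq_gcd_ab]; push_cast; ring
    have a0 : 0 < a := Nat.pos_of_ne_zero fun k => by simp [k] at ea; linarith
    obtain ⟨n, hn⟩ := Nat.gcd_dvd_left a b
    obtain ⟨n', hn'⟩ := Nat.gcd_dvd_right a b
    refine ⟨_, e ▸ mul_pos (by exact_mod_cast Nat.gcd_pos_of_pos_left b a0) hD, n, n', ?_, ?_⟩ <;>
      rw [← map_pow] <;> apply xe <;> rw [← zpow_natCast, tz, e]
    · rw [ea]; conv_lhs => rw [hn]
      push_cast; ring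
    · rw [eb]; conv_lhs => rw [hn']
      push_cast; ring
  have c2 : ∀ r r' : Module.End ℤ V × ℝ, (∃ s, 0 < τ s ∧ ∃ m p, r * x s ^ m = aeval (x s) (p : ℤ[X])) →
      (∃ s, 0 < τ s ∧ ∃ m p, r' * x s ^ m = aeval (x s) (p : ℤ[X])) → ∃ s, 0 < τ s ∧ ∃ m p m' p',
        r * x s ^ m = aeval (x s) (p : ℤ[X]) ∧ r' * x s ^ m' = aeval (x s) (p' : ℤ[X]) := by
    rintro r r' ⟨s, h, m, p, e⟩ ⟨s', h', m', p', e'⟩
    obtain ⟨u, hu, n, n', k, k'⟩ := cm s s' h h'
    exact ⟨u, hu, n * m, expand ℤ n p, n' * m', expand ℤ n' p', by rw [expand_aeval, pow_mul, ← k, e],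
      by rw [expand_aeval, pow_mul, ← k', e']⟩
  let R : Subring (Module.End ℤ V × ℝ) :=
    { carrier := {r | ∃ s, 0 < τ s ∧ ∃ m p, r * x s ^ m = aeval (x s) (p : ℤ[X])}
      mul_mem' := fun {r r'} h h' => by
        obtain ⟨s, h, m, p, m', p', e, e'⟩ := c2 r r' h h'
        refine ⟨s, h, m' + m, p * p', ?_⟩
        have : aeval (x s) p' * x s ^ m = x s ^ m * aeval (x s) p' := by
          simpa using congrArg (aeval (x s)) (mul_comm p' (X ^ m))
        rw [pow_add, mul_assoc, ← mul_assoc r', e', this, ← mul_assoc, e, map_mul]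
      one_mem' := ⟨g, tg, 0, 1, by simp⟩
      add_mem' := fun {r r'} h h' => by
        obtain ⟨s, h, m, p, m', p', e, e'⟩ := c2 r r' h h'
        refine ⟨s, h, m + m', p * X ^ m' + p' * X ^ m, ?_⟩
        rw [add_mul, pow_add, ← mul_assoc, e, ← pow_add, add_comm m, pow_add, ← mul_assoc, e']
        simp
      zero_mem' := ⟨g, tg, 0, 0, by simp⟩
      neg_mem' := fun {r} ⟨s, h, m, p, e⟩ => ⟨s, h, m, -p, by rw [neg_mul, e, map_neg]⟩ }
  have xR : ∀ s, x s ∈ R := fun s => by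
    rcases lt_trichotomy 0 (τ s) with h | h | h
    · exact ⟨s, h, 0, X, by simp⟩
    · rw [xe s 1 (by rw [t1, h]), map_one]; exact one_mem R
    · exact ⟨s⁻¹, by rw [← zpow_neg_one, tz]; simpa using h, 1, 1, by simp [← map_mul]⟩
  have z0 : ∀ (r : Module.End ℤ V × ℝ) s m, r * x s ^ m = 0 → r = 0 := fun r s m e => by
    have := congrArg (· * x s⁻¹ ^ m) e
    simpa [mul_assoc, ← map_pow, ← map_mul] using this
  have inj : ∀ r : R, r.1.2 = 0 → r = 0 := by
    rintro ⟨r, s, h, m, p, e⟩ k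
    have e2 := congrArg Prod.snd e
    have : Transcendental ℤ (t ^ (τ s : ℝ)) := fun al => by
      have := al.pow (τ s).den
      rw [← Real.rpow_natCast, ← Real.rpow_mul t0.le, ← Rat.cast_natCast, ← Rat.cast_mul,
        Rat.mul_den_eq_num, ← Int.natAbs_of_nonneg (Rat.num_nonneg.2 h.le)] at this
      exact tr (.of_pow (Int.natAbs_pos.2 (Rat.num_pos.2 h).ne') (by
        rwa [Rat.cast_intCast, Int.cast_natCast, Real.rpow_natCast] at this))
    have p0 : p = 0 := transcendental_iff.1 this p (by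
      have := aeval_algHom_apply (AlgHom.snd ℤ (Module.End ℤ V) ℝ) (x s) p
      rw [Prod.snd_mul, show r.2 = 0 from k, zero_mul] at e2
      exact this.trans e2.symm)
    exact Subtype.ext (z0 r s m (by rw [e, p0, map_zero]))
  have com : ∀ r r' : R, r * r' = r' * r := fun r r' => sub_eq_zero.1 (inj _ (by simp [mul_comm]))
  let _ : Module R V := Module.compHom V ((RingHom.fst _ ℝ).comp R.subtype)
  let _ : Module R ℝ := Module.compHom ℝ ((RingHom.snd (Module.End ℤ V) ℝ).comp R.subtype)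
  have sV : ∀ (r : R) (v : V), r • v = r.1.1 v := fun _ _ => rfl
  have sR : ∀ (r : R) (v : ℝ), r • v = r.1.2 * v := fun _ _ => rfl
  have B : Module.Baer R ℝ := fun I f => by
    by_cases h : ∃ y ∈ I, y ≠ 0
    · obtain ⟨y, hy, y0⟩ := h
      have : y.1.2 ≠ 0 := fun k => y0 (inj y k)
      refine ⟨LinearMap.toSpanSingleton R ℝ (f ⟨y, hy⟩ / y.1.2), fun r hr => ?_⟩
      have e : r • (⟨y, hy⟩ : I) = y • (⟨r, hr⟩ : I) := Subtype.ext (com r y)
      have := congrArg f e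
      rw [map_smul, map_smul, sR, sR] at this
      rw [LinearMap.toSpanSingleton_apply, sR]
      field_simp
      exact this
    · push Not at h
      exact ⟨0, fun r hr => by rw [show (⟨r, hr⟩ : I) = 0 from Subtype.ext (h r hr)]; simp⟩
  obtain ⟨ψ, hψ⟩ := B.extension_property (LinearMap.toSpanSingleton R V a)
    ((injective_iff_map_eq_zero _).2 fun r k => by
      obtain ⟨s, h, m, p, e⟩ := r.2
      have e1 : x s ^ m * r.1 = aeval (x s) p := e ▸ congrArg Subtype.val (com (⟨x s, xR s⟩ ^ m) r)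
      have p0 : p = 0 := ha s h p (by
        have := aeval_algHom_apply (AlgHom.fst ℤ (Module.End ℤ V) ℝ) (x s) p
        change aeval (x s).1 p = (aeval (x s) p).1 at this
        rw [show ρ s = (x s).1 from rfl, this, ← e1, Prod.fst_mul, Module.End.mul_apply,
          show r.1.1 a = 0 from k, map_zero])
      exact Subtype.ext (z0 _ s m (by rw [e, p0, map_zero]))) (LinearMap.toSpanSingleton R ℝ 1)
  exact ⟨t, t3, ψ.toAddMonoidHom, by simpa using DFunLike.congr_fun hψ 1,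
    fun s v => ψ.map_smul ⟨x s, xR s⟩ v⟩

end Pool.Agent.H.MP_b01f87_al
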