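import Pool.Agent.H.MP_b01f87_al.E

set_option autoImplicit false

namespace Pool.Agent.H.MP_b01f87_al

open Polynomial
open scoped commutatorElement

universe u

variable {G : Type u} [Group G] {V : Type u} [AddCommGroup V] (ρ : G →* Module.End ℤ V)
  (ι : Multiplicative V →* G) (ii : Function.Injective ι)
  (ic : ∀ g v, ι (.ofAdd (ρ g v)) = g * ι (.ofAdd v) * g⁻¹)
include ii ic

theorem poly (h : BC (⊥ : Subgroup G) ⊤) (nb : ¬ Bad (⊤ : Subgroup G)) (s : G) {p : ℤ[X]} (hp : p ≠ 0)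
    {a : V} (e : aeval (ρ s) p a = 0) : ∃ j : ℕ, ((ρ s - 1) ^ j) a = 0 := by
  obtain ⟨q, e1, e2⟩ := exists_eq_pow_rootMultiplicity_mul_and_not_dvd p hp 1
  refine ⟨rootMultiplicity 1 p, by_contra fun k => ?_⟩
  rw [e1, mul_comm, map_mul, map_pow, Module.End.mul_apply] at e
  simp only [aeval_sub, aeval_X, map_one] at e
  generalize ((ρ s - 1) ^ rootMultiplicity 1 p) a = b at e k
  obtain ⟨_, _, _⟩ := exBO h
  have b1 : ι (.ofAdd b) ≠ 1 := fun k' => k (by simpa using ii (k'.trans (map_one ι).symm))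
  have w1 : 1 < max (ι (.ofAdd b)) (ι (.ofAdd b))⁻¹ := by
    rcases lt_or_gt_of_ne b1 with c | c
    · exact lt_max_of_lt_right (by simpa using c)
    · exact lt_max_of_lt_left c
  have key : ∀ q : ℤ[X], ι (.ofAdd (aeval (ρ s) q b - q.eval 1 • b)) ∈ Sm w1 := fun q => by
    induction q using Polynomial.induction_on' with
    | add p q hp hq =>
      convert mul_mem hp hq using 1
      rw [← map_mul, ← ofAdd_add]
      congr 2
      simp [add_smul]; abel
    | monomial n c =>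
      have := Sm.comm nb w1 (j := 1) (y := ι (.ofAdd b)) (by simp) (by simp) (s ^ n)
      convert zpow_mem this c using 1
      rw [commutatorElement_def, ← ic, ← map_inv, ← map_mul, ← map_zpow]
      congr 1
      apply Multiplicative.toAdd.injective
      simp [aeval_monomial, sub_eq_add_neg]
  have := key q
  rw [e, zero_sub, ofAdd_neg, map_inv, inv_mem_iff, ofAdd_zsmul, map_zpow] at this
  have q1 : q.eval 1 ≠ 0 := fun k => e2 (dvd_iff_isRoot.2 k)
  have hb : ι (.ofAdd b) ∈ Sm w1 := by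
    generalize q.eval 1 = n at this q1
    obtain ⟨n, rfl | rfl⟩ := n.eq_nat_or_neg <;> obtain ⟨n, rfl⟩ : ∃ i, n = i + 1 := ⟨n - 1, by omega⟩
    · exact (Sm.bc nb w1).rc.root trivial (by rwa [zpow_natCast] at this)
    · exact (Sm.bc nb w1).rc.root trivial (by rwa [zpow_neg, inv_mem_iff, zpow_natCast] at this)
  refine Sm.self w1 ?_
  rcases max_choice (ι (.ofAdd b)) (ι (.ofAdd b))⁻¹ with c | c
  · convert hb
  · convert inv_mem hb

theorem rho_one {g : G} (hg : g ∈ ι.range) : ρ g = 1 := by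
  obtain ⟨u, rfl⟩ := hg
  ext v
  exact Multiplicative.ofAdd.injective (ii (by rw [ic, ← map_inv, ← map_mul, ← map_mul]; simp))

theorem engel (h : BC (⊥ : Subgroup G) ⊤) (nb : ¬ Bad (⊤ : Subgroup G)) (hA : BC ι.range ⊤) (g : G)
    (a : V) : ∃ j : ℕ, ((ρ g - 1) ^ j) a = 0 := by
  by_cases hg : g ∈ ι.range
  · exact ⟨1, by simp [rho_one ρ ι ii ic hg]⟩
  by_contra ne
  have := hA.normal inferInstance
  let π := QuotientGroup.mk' ι.range
  have hπ : ∀ x, π x = 1 ↔ x ∈ ι.range := fun x => QuotientGroup.eq_one_iff x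
  let T := Subgroup.centralizer {π g}
  have rT := rc_cent hA.quot (π g)
  let z : T := ⟨π g, Subgroup.mem_centralizer_singleton_iff.2 rfl⟩
  obtain ⟨I, i1, i2, i3⟩ := bc_I (hA.quot.sub T)
    (fun k => nb ((k.sub rT).comap π (QuotientGroup.mk'_surjective _))) (z := z)
    (Subgroup.mem_center_iff.2 fun x => Subtype.ext (Subgroup.mem_centralizer_singleton_iff.1 x.2))
  have rI := i2.rc.map T.subtype (ker_sub _ _)
  rw [map_sub] at rI
  have rS := (rI.lex rT).comap π
  set J := I.map T.subtype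
  let _ : CommGroup J := { J.toGroup with
    mul_comm := fun ⟨_, x, hx, rfl⟩ ⟨_, y, _, rfl⟩ =>
      Subtype.ext (congrArg Subtype.val (Subgroup.mem_center_iff.1 (i1 hx) y)).symm }
  have gJ : π g ∈ J := ⟨z, (i3 z).2 ⟨0, 1, by simp⟩, rfl⟩
  have tf : ∀ x : G ⧸ ι.range, ∀ k : ℕ, x ^ (k + 1) = 1 → x = 1 := fun x k e =>
    hA.quot.rc.root trivial e
  obtain ⟨ψ, hψ⟩ := ex_hom (V := Additive J) (v := .ofMul ⟨π g, gJ⟩) fun n hn => by
    have : π g ^ n = 1 := congrArg Subtype.val (show (⟨π g, gJ⟩ : J) ^ n = 1 from hn)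
    by_contra n0
    obtain ⟨n, rfl | rfl⟩ := n.eq_nat_or_neg <;> obtain ⟨n, rfl⟩ : ∃ i, n = i + 1 := ⟨n - 1, by omega⟩
    · exact hg ((hπ g).1 (tf _ n (by rwa [zpow_natCast] at this)))
    · exact hg ((hπ g).1 (tf _ n (by rwa [zpow_neg, inv_eq_one, zpow_natCast] at this)))
  let τ : J.comap π → ℚ := fun s => ψ (.ofMul ⟨π s, s.2⟩)
  have ta : ∀ s t, τ (s * t) = τ s + τ t := fun s t => by
    rw [← map_add]; exact congrArg ψ (congrArg Additive.ofMul (Subtype.ext (map_mul π _ _)))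
  have sp : ∀ s : J.comap π, ∃ (k : ℕ) (l : ℤ), π s ^ (k + 1) = π g ^ l ∧ (k + 1) * τ s = l := fun s => by
    obtain ⟨x, hx, e⟩ := s.2
    obtain ⟨k, l, e'⟩ := (i3 x).1 hx
    have e2 : π s ^ (k + 1) = π g ^ l := by rw [← e]; exact congrArg Subtype.val e'
    have := congrArg (fun y : J => ψ (.ofMul y))
      (show (⟨π s, s.2⟩ : J) ^ (k + 1) = ⟨π g, gJ⟩ ^ l from Subtype.ext e2)
    exact ⟨k, l, e2, by simpa [hψ] using this⟩
  have tA : ∀ s : J.comap π, s.1 ∈ ι.range → τ s = 0 := fun s hs => by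
    rw [← map_zero ψ]; exact congrArg ψ (congrArg Additive.ofMul (Subtype.ext ((hπ _).2 hs)))
  obtain ⟨t, t3, φ, φ1, φ2⟩ := ex_aff (ρ.comp (J.comap π).subtype) τ ta (fun s hs => by
      obtain ⟨k, l, e, e'⟩ := sp s
      obtain rfl : l = 0 := by simpa [hs] using e'.symm
      exact rho_one ρ ι ii ic ((hπ _).1 (tf _ k (by simpa using e)))) (g := ⟨g, gJ⟩)
    (by rw [show τ ⟨g, gJ⟩ = 1 from hψ]; norm_num) (a := a) fun s hs p e => by_contra fun hp => by
      obtain ⟨j, hj⟩ := poly ρ ι ii ic h nb s hp e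
      obtain ⟨k, l, e, e'⟩ := sp s
      obtain ⟨l, rfl⟩ := Int.eq_ofNat_of_zero_le (show 0 ≤ l by
        have : (0 : ℚ) ≤ l := e' ▸ by positivity
        exact_mod_cast this)
      have l0 : 0 < l := by
        have : (0 : ℚ) < (l : ℤ) := e' ▸ by positivity
        exact_mod_cast this
      have e3 : ρ s ^ (k + 1) = ρ g ^ l := by
        have := rho_one ρ ι ii ic ((hπ (s.1 ^ (k + 1) * (g ^ l)⁻¹)).1 (by simp [e]))
        rw [← map_pow, ← map_pow, ← inv_mul_cancel_right (s.1 ^ (k + 1)) (g ^ l), map_mul, this, one_mul]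
      refine ne (poly ρ ι ii ic h nb g (p := (X ^ l - C 1) ^ j) (pow_ne_zero _ (X_pow_sub_C_ne_zero l0 1)) ?_)
      obtain ⟨r, hr⟩ := pow_dvd_pow_of_dvd (sub_dvd_pow_sub_pow (X : ℤ[X]) 1 (k + 1)) j
      have := congrArg (aeval (ρ s)) (hr.trans (mul_comm _ _))
      simp only [map_pow, aeval_sub, aeval_X, map_one, map_mul, one_pow] at this ⊢
      rw [← e3, this, Module.End.mul_apply, hj, map_zero]
  have t0 : 0 < t := by linarith
  have ex : ∀ s : J.comap π, ∃ v, ι (.ofAdd v) = s * g * s.1⁻¹ * g⁻¹ := fun s => (hπ _).1 (by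
    have := congrArg Subtype.val (mul_comm (⟨π s, s.2⟩ : J) ⟨π g, gJ⟩)
    simp only [map_mul, map_inv]
    rw [show π s * π g = π g * π s from this]; simp)
  choose c hc using ex
  have cm : ∀ s s', c (s * s') = ρ s (c s') + c s := fun s s' => Multiplicative.ofAdd.injective
    (ii (by rw [ofAdd_add, map_mul, ic, hc, hc, hc, Subgroup.coe_mul]; group))
  have aS : ι (.ofAdd a) ∈ J.comap π := by
    rw [Subgroup.mem_comap, (hπ _).2 ⟨_, rfl⟩]; exact one_mem _
  let α : J.comap π → ℝ → ℝ := fun s u => t ^ (τ s : ℝ) * u + φ (c s)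
  have hm : ∀ s s' u, α (s * s') u = α s (α s' u) := fun s s' u => by
    have := φ2 s (c s')
    simp only [α, ta, cm, map_add, Rat.cast_add, Real.rpow_add t0]
    rw [show φ (ρ s (c s')) = _ from this]; ring
  have h1 : ∀ u, α 1 u = u := fun u => by
    have : c 1 = 0 := Multiplicative.ofAdd.injective (ii (by simp [hc]))
    simp [α, this, tA 1 (one_mem _)]
  have ag : ∀ u, α ⟨g, gJ⟩ u = t * u := fun u => by
    have : c ⟨g, gJ⟩ = 0 := Multiplicative.ofAdd.injective (ii (by simp [hc]))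
    simp [α, this, show τ ⟨g, gJ⟩ = 1 from hψ]
  have aa : ∀ u, α ⟨_, aS⟩⁻¹ u = u + (t - 1) := fun u => by
    have : c ⟨_, aS⟩⁻¹ = -a + ρ g a := Multiplicative.ofAdd.injective
      (ii (by rw [hc, ofAdd_add, map_mul, ic]; simp [mul_assoc]))
    have e := φ2 ⟨g, gJ⟩ a
    rw [show τ ⟨g, gJ⟩ = 1 from hψ, φ1] at e
    simp only [α, this, tA ⟨_, aS⟩⁻¹ (inv_mem ⟨_, rfl⟩), map_add, map_neg, φ1]
    rw [show φ (ρ g a) = _ from e]; simp; ring
  have ai : ∀ u, α ⟨g, gJ⟩⁻¹ u = u / t := fun u => by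
    rw [eq_div_iff t0.ne', mul_comm, ← ag, ← hm, mul_inv_cancel, h1]
  refine nb ((bad_act α h1 hm (fun s u v k => ?_) (o := (t - 1) / t) (v := 2 * (t - 1)) (f := ⟨g, gJ⟩)
    (g := ⟨_, aS⟩⁻¹ * ⟨g, gJ⟩⁻¹) ?_ ?_ ?_ (fun u hu => ?_) ?_).sub rS)
  · simpa [α] using mul_lt_mul_of_pos_left k (Real.rpow_pos_of_pos t0 _)
  · rw [ag, mul_div_cancel₀ _ t0.ne', div_lt_iff₀ t0]; nlinarith
  · rw [hm, ag, ai, aa, mul_div_cancel₀ _ t0.ne']
    have : 0 < (t - 1) / t / t := by have : 0 < t - 1 := by linarith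
                                     positivity
    linarith
  · rw [ag, mul_div_cancel₀ _ t0.ne']; linarith
  · rw [hm, ai, aa]
    have : u / t < t - 1 := by rw [div_lt_iff₀ t0]; nlinarith
    linarith
  · rw [hm, ag, ai, aa]
    have : 0 < (t - 1) / t / t := by have : 0 < t - 1 := by linarith
                                     positivity
    nlinarith

end Pool.Agent.H.MP_b01f87_al
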