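import Pool.Agent.H.MP_b01f87_al.C

set_option autoImplicit false

namespace Pool.Agent.H.MP_b01f87_al

open scoped commutatorElement

universe u

variable {G : Type u} [Group G]

/-- The normal closure of `V` and its iterated commutators with the whole group. -/
def Bs (V : Subgroup G) : ℕ → Subgroup G
  | 0 => Subgroup.normalClosure V
  | j + 1 => ⁅Bs V j, ⊤⁆

instance Bs.nm (V : Subgroup G) : ∀ j, (Bs V j).Normal
  | 0 => Subgroup.normalClosure_normal
  | j + 1 => have := Bs.nm V j; Subgroup.commutator_normal _ _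

theorem Bs.lcs (V : Subgroup G) : ∀ j, Bs V j ≤ (⊤ : Subgroup G).lowerCentralSeries j
  | 0 => le_top
  | j + 1 => Subgroup.commutator_mono (Bs.lcs V j) le_rfl

theorem Bs.cm (V : Subgroup G) (j : ℕ) {b : G} (hb : b ∈ Bs V j) (x : G ⧸ Bs V (j + 1)) :
    Commute (QuotientGroup.mk' _ b) x := by
  obtain ⟨x, rfl⟩ := QuotientGroup.mk'_surjective _ x
  rw [← commutatorElement_eq_one_iff_commute, ← map_commutatorElement]
  exact (QuotientGroup.eq_one_iff _).2 (Subgroup.commutator_mem_commutator hb trivial)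

/-- Elements of `Bs V j` with a power in `V` modulo the next term. -/
def Ts (V : Subgroup G) (j : ℕ) : Subgroup G where
  carrier := {b | b ∈ Bs V j ∧ ∃ (n : ℕ), ∃ v ∈ V, v ∈ Bs V j ∧
    QuotientGroup.mk' (Bs V (j + 1)) b ^ (n + 1) = QuotientGroup.mk' _ v}
  one_mem' := ⟨one_mem _, 0, 1, one_mem _, one_mem _, by simp⟩
  inv_mem' := fun ⟨a, n, v, b, c, e⟩ => ⟨inv_mem a, n, v⁻¹, inv_mem b, inv_mem c,
    by rw [map_inv, map_inv, inv_pow, e]⟩
  mul_mem' := fun ⟨a, n, v, b, c, e⟩ ⟨a', m, w, b', c', e'⟩ => ⟨mul_mem a a', n * m + n + m,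
    v ^ (m + 1) * w ^ (n + 1), mul_mem (pow_mem b _) (pow_mem b' _), mul_mem (pow_mem c _) (pow_mem c' _),
    by
      rw [map_mul, map_mul, map_pow, map_pow, ← e, ← e', (Bs.cm V j a _).mul_pow, ← pow_mul, ← pow_mul]
      congr 2 <;> ring⟩

theorem Ts.of {V : Subgroup G} {j : ℕ} {a b : G} (n : ℕ) (ha : a ∈ Bs V j) (hb : b ∈ Ts V j)
    (e : QuotientGroup.mk' (Bs V (j + 1)) a ^ (n + 1) = QuotientGroup.mk' _ b) : a ∈ Ts V j := by
  obtain ⟨-, m, v, c, d, e'⟩ := hb
  exact ⟨ha, n * m + n + m, v, c, d, by rw [← e', ← e, ← pow_mul]; congr 1; ring⟩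

theorem nm_iso' [Group.IsNilpotent G] {V : Subgroup G} (is : ∀ x, ∀ k : ℕ, x ^ (k + 1) ∈ V → x ∈ V)
    {q : G} (top : Subgroup.closure (insert q (V : Set G)) = ⊤) {m : ℕ}
    (hq : q ^ (m + 1) ∈ Subgroup.normalizer (V : Set G)) : V.Normal := by
  have up : ∀ j, Bs V j ≤ Ts V j := by
    intro j
    induction j with
    | zero =>
      refine (Subgroup.closure_le _).2 fun x hx => ?_
      obtain ⟨v, hv, c⟩ := Group.mem_conjugatesOfSet_iff.1 hx
      obtain ⟨g, rfl⟩ := isConj_iff.1 c
      have v0 : v ∈ Bs V 0 := Subgroup.subset_normalClosure hv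
      exact ⟨(Bs.nm V 0).conj_mem _ v0 g, 0, v, hv, v0, by
        rw [pow_succ, pow_zero, one_mul, map_mul, map_mul, ← (Bs.cm V 0 v0 _).eq]; simp⟩
    | succ j ih =>
      refine Subgroup.commutator_le.2 fun b hb l _ => ?_
      let π := QuotientGroup.mk' (Bs V (j + 2))
      have mem : ∀ b ∈ Bs V j, ∀ l, ⁅b, l⁆ ∈ Bs V (j + 1) := fun b hb l =>
        Subgroup.commutator_mem_commutator hb trivial
      have r : ∀ b ∈ Bs V j, ∀ l l', π ⁅b, l * l'⁆ = π ⁅b, l⁆ * π ⁅b, l'⁆ := fun b hb l l' => by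
        rw [show ⁅b, l * l'⁆ = ⁅b, l⁆ * (l * ⁅b, l'⁆ * l⁻¹) by simp only [commutatorElement_def]; group,
          map_mul, map_mul, map_mul, ← (Bs.cm V _ (mem b hb l') _).eq]
        simp [π]
      have lf : ∀ b, ∀ c ∈ Bs V j, ∀ l, π ⁅b * c, l⁆ = π ⁅c, l⁆ * π ⁅b, l⁆ := fun b c hc l => by
        rw [show ⁅b * c, l⁆ = b * ⁅c, l⁆ * b⁻¹ * ⁅b, l⁆ by simp only [commutatorElement_def]; group,
          map_mul, map_mul, map_mul, ← (Bs.cm V _ (mem c hc l) _).eq]
        simp [π]
      obtain ⟨-, n, v, v1, v2, e⟩ := ih hb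
      have hv : ⁅v, l⁆ ∈ Ts V (j + 1) := by
        have : l ∈ Subgroup.closure (insert q (V : Set G)) := top ▸ trivial
        induction this using Subgroup.closure_induction with
        | mem x hx =>
          rcases hx with rfl | hx
          · refine ⟨mem v v2 _, m, ⁅v, x ^ (m + 1)⁆, ?_, mem v v2 _, ?_⟩
            · have := (Subgroup.mem_normalizer_iff.1 hq _).1 (inv_mem v1)
              simpa [commutatorElement_def, mul_assoc] using mul_mem v1 this
            · generalize m + 1 = i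
              induction i with
              | zero => simp
              | succ i ih => rw [pow_succ, pow_succ, ih]; exact (r v v2 _ _).symm
          · exact ⟨mem v v2 _, 0, _, mul_mem (mul_mem (mul_mem v1 hx) (inv_mem v1)) (inv_mem hx),
              mem v v2 _, pow_one _⟩
        | one => simp
        | mul x y _ _ a b => exact Ts.of 0 (mem v v2 _) (mul_mem (a trivial) (b trivial)) (by
            rw [zero_add, pow_one, map_mul]; exact r v v2 x y)
        | inv x _ a => exact Ts.of 0 (mem v v2 _) (inv_mem (a trivial)) (by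
            rw [zero_add, pow_one, map_inv, eq_inv_iff_mul_eq_one]
            exact (r v v2 x⁻¹ x).symm.trans (by simp))
      refine Ts.of n (mem b hb l) hv ?_
      rw [← map_pow, eq_comm, QuotientGroup.mk'_eq_mk'] at e
      obtain ⟨z, hz, e⟩ := e
      have p : ∀ i : ℕ, π ⁅b, l⁆ ^ i = π ⁅b ^ i, l⁆ := fun i => by
        induction i with
        | zero => simp
        | succ i ih => rw [pow_succ', pow_succ b, lf _ b hb, ih]
      refine (p _).trans ?_
      rw [← e, lf v z (Subgroup.commutator_le_left _ _ hz),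
        show π ⁅z, l⁆ = 1 from (QuotientGroup.eq_one_iff _).2
          (Subgroup.commutator_mem_commutator hz trivial), one_mul]
  obtain ⟨c, hc⟩ := Subgroup.nilpotent_iff_lowerCentralSeries.1 ‹Group.IsNilpotent G›
  have dn : ∀ j ≤ c, Bs V j ≤ V := fun j hj => by
    induction hj using Nat.decreasingInduction with
    | self => exact (Bs.lcs V c).trans (hc ▸ bot_le)
    | of_succ j _ ih =>
      intro b hb
      obtain ⟨-, n, v, v1, -, e⟩ := up j hb
      rw [← map_pow, eq_comm, QuotientGroup.mk'_eq_mk'] at e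
      obtain ⟨z, hz, e⟩ := e
      exact is b n (e ▸ mul_mem v1 (ih hz))
  have : V = Bs V 0 := le_antisymm Subgroup.le_normalClosure (dn 0 c.zero_le)
  exact this ▸ Bs.nm V 0

theorem nm_iso [Group.IsNilpotent G] {V : Subgroup G} (is : ∀ x, ∀ k : ℕ, x ^ (k + 1) ∈ V → x ∈ V)
    (q : G) (m : ℕ) (hq : q ^ (m + 1) ∈ Subgroup.normalizer (V : Set G)) :
    q ∈ Subgroup.normalizer (V : Set G) := by
  let L := Subgroup.closure (insert q (V : Set G))
  have le : V ≤ L := fun x hx => Subgroup.subset_closure (Or.inr hx)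
  have qL : q ∈ L := Subgroup.subset_closure (Or.inl rfl)
  have := nm_iso' (V := V.subgroupOf L) (fun x k h => is x.1 k h) (q := ⟨q, qL⟩) (m := m) (by
    have := Subgroup.closure_closure_coe_preimage (k := insert q (V : Set G))
    convert this using 2
    ext x
    simp [Subgroup.mem_subgroupOf, Subtype.ext_iff]) (Subgroup.mem_normalizer_iff.2 fun x =>
      Subgroup.mem_normalizer_iff.1 hq x.1)
  exact (Subgroup.normal_subgroupOf_iff_le_normalizer le).1 this qL

theorem rc_iso [Group.IsNilpotent G] (n : ℕ) : ∀ V : Subgroup G,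
    (∀ x, ∀ k : ℕ, x ^ (k + 1) ∈ V → x ∈ V) → (⊤ : Subgroup G).lowerCentralSeries n ≤ V → RC V ⊤ := by
  induction n with
  | zero => exact fun V _ h => ⟨∅, le_top, by simp, by simp, by simp, by simp, by simp,
      fun g _ e => (e (h trivial)).elim⟩
  | succ n ih =>
    intro V is h
    refine RC.lex ?_ (ih _ (nm_iso is) ?_)
    · obtain ⟨c, hc⟩ := Subgroup.nilpotent_iff_lowerCentralSeries.1
        (inferInstance : Group.IsNilpotent (Subgroup.normalizer (V : Set G)))
      have := (bc_nil_mod (W := V.subgroupOf (Subgroup.normalizer (V : Set G))) inferInstance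
        (hc ▸ bot_le) fun x k h => is x.1 k h).rc.map _ (ker_sub _ _)
      rwa [map_sub, Subgroup.map_subgroupOf_eq_of_le Subgroup.le_normalizer] at this
    · rw [Subgroup.le_normalizer_iff_commutator_le_right]
      exact (Subgroup.commutator_mono le_rfl le_top).trans h

end Pool.Agent.H.MP_b01f87_al
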