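import Pool.Agent.H.MP_b01f87_al.F
import Pool.Agent.H.MP_b01f87_al.I

set_option autoImplicit false

namespace Pool.Agent.H.MP_b01f87_al

open scoped commutatorElement

universe u

variable {G : Type u} [Group G]

section fix
variable {V : Type u} [AddCommGroup V] (ρ : G →* Module.End ℤ V)
  (en : ∀ g a, ∃ j : ℕ, ((ρ g - 1) ^ j) a = 0) {X : Set G} (fX : X.Finite) {U : Submodule ℤ V}
  (hU : ∀ h ∈ Subgroup.closure X, ∀ u ∈ U, ρ h u ∈ U)

/-- Vectors fixed modulo `U`. -/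
def Fx (U W : Submodule ℤ V) (Y : Set G) : Submodule ℤ V where
  carrier := {w | w ∈ W ∧ ∀ y ∈ Y, ρ y w - w ∈ U}
  add_mem' := fun a b => ⟨add_mem a.1 b.1, fun y hy => by
    convert add_mem (a.2 y hy) (b.2 y hy) using 1; rw [map_add]; abel⟩
  zero_mem' := ⟨zero_mem _, by simp⟩
  smul_mem' := fun c _ a => ⟨W.smul_mem c a.1, fun y hy => by
    rw [map_smul, ← smul_sub]; exact U.smul_mem c (a.2 y hy)⟩

include en in
theorem fix1 (g : G) {W : Submodule ℤ V} (hW : ∀ w ∈ W, ρ g w ∈ W) (ne : ¬ W ≤ U) :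
    ∃ w ∈ W, w ∉ U ∧ ρ g w - w ∈ U := by
  obtain ⟨w, a, b⟩ := SetLike.not_le_iff_exists.1 ne
  obtain ⟨j, hj⟩ := en g w
  induction j generalizing w with
  | zero => exact absurd (by simpa using hj : w = 0) fun k => b (k ▸ zero_mem _)
  | succ j ih =>
    by_cases k : ρ g w - w ∈ U
    · exact ⟨w, a, b, k⟩
    · exact ih _ (sub_mem (hW w a) a) k (by simpa [pow_succ] using hj)

include hU in
theorem Fx.inv {W : Submodule ℤ V} (hW : ∀ h ∈ Subgroup.closure X, ∀ w ∈ W, ρ h w ∈ W) {Y : Set G}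
    (c : ∀ y ∈ Y, ∀ h ∈ Subgroup.closure X, ∀ w ∈ W, ρ y (ρ h w) - ρ h (ρ y w) ∈ U) :
    ∀ h ∈ Subgroup.closure X, ∀ w ∈ Fx ρ U W Y, ρ h w ∈ Fx ρ U W Y := fun h hh w hw =>
  ⟨hW h hh w hw.1, fun y hy => by
    convert add_mem (c y hy h hh w hw.1) (hU h hh _ (hw.2 y hy)) using 1; rw [_root_.map_sub]; abel⟩

include en hU in
theorem fix2 {W : Submodule ℤ V} (hW : ∀ h ∈ Subgroup.closure X, ∀ w ∈ W, ρ h w ∈ W) (ne : ¬ W ≤ U)
    {Y : Set G} (fY : Y.Finite) : Y ⊆ Subgroup.closure X →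
    (∀ y ∈ Y, ∀ h ∈ Subgroup.closure X, ∀ w ∈ W, ρ y (ρ h w) - ρ h (ρ y w) ∈ U) → ¬ Fx ρ U W Y ≤ U := by
  induction Y, fY using Set.Finite.induction_on with
  | empty => exact fun _ _ k => ne fun w hw => k ⟨hw, by simp⟩
  | @insert y Y _ _ ih =>
    intro s c k
    have c' := fun y hy => c y (Set.mem_insert_of_mem _ hy)
    obtain ⟨w, a, b, d⟩ := fix1 ρ en y (Fx.inv ρ hU hW c' y (s (Set.mem_insert _ _)))
      (ih ((Set.subset_insert _ _).trans s) c')
    exact b (k ⟨a.1, Set.forall_mem_insert.2 ⟨d, a.2⟩⟩)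

include en fX hU in
theorem fix3 (n : ℕ) : ∀ W : Submodule ℤ V, (∀ h ∈ Subgroup.closure X, ∀ w ∈ W, ρ h w ∈ W) → ¬ W ≤ U →
    (∀ y ∈ Cm X n, ∀ w ∈ W, ρ y w - w ∈ U) → ∃ w, w ∉ U ∧ ∀ x ∈ X, ρ x w - w ∈ U := by
  induction n with
  | zero =>
    intro W _ ne c
    obtain ⟨w, a, b⟩ := SetLike.not_le_iff_exists.1 ne
    exact ⟨w, b, fun x hx => c x hx w a⟩
  | succ n ih =>
    intro W hW ne c
    have s : Cm X n ⊆ Subgroup.closure X := (Cm.lcs Subgroup.subset_closure n).trans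
      (Subgroup.lowerCentralSeries_antitone _ (Nat.zero_le n))
    have c' : ∀ y ∈ Cm X n, ∀ h ∈ Subgroup.closure X, ∀ w ∈ W, ρ y (ρ h w) - ρ h (ρ y w) ∈ U := by
      intro y hy h hh
      induction hh using Subgroup.closure_induction with
      | mem x hx =>
        intro w hw
        convert c _ ⟨y, hy, x, hx, rfl⟩ _ (hW x (Subgroup.subset_closure hx) _ (hW y (s hy) w hw)) using 2
        simp only [← Module.End.mul_apply, ← map_mul, commutatorElement_def]
        congr 2; group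
      | one => simp
      | mul a b ha hb i j =>
        intro w hw
        convert add_mem (i _ (hW b hb w hw)) (hU a ha _ (j w hw)) using 1
        simp
      | inv a ha i =>
        intro w hw
        convert neg_mem (hU _ (inv_mem ha) _ (i _ (hW _ (inv_mem ha) w hw))) using 1
        have : ∀ v, ρ a (ρ a⁻¹ v) = v := fun v => by rw [← Module.End.mul_apply, ← map_mul]; simp
        have : ∀ v, ρ a⁻¹ (ρ a v) = v := fun v => by rw [← Module.End.mul_apply, ← map_mul]; simp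
        simp [*]
    exact ih _ (Fx.inv ρ hU hW c') (fix2 ρ en hU hW ne (Cm.fin fX n) s c') fun y hy w hw => hw.2 y hy

/-- The upper central series of a module. -/
def Us (X : Set G) : ℕ → Submodule ℤ V
  | 0 => ⊥
  | k + 1 => Fx ρ (Us X k) ⊤ (Subgroup.closure X)

theorem Us.inv (X : Set G) : ∀ k, ∀ h ∈ Subgroup.closure X, ∀ u ∈ Us ρ X k, ρ h u ∈ Us ρ X k
  | 0 => by simp [Us]
  | k + 1 => fun h hh u hu => ⟨trivial, fun y hy => by
      convert Us.inv X k h hh _ (hu.2 (h⁻¹ * y * h) (mul_mem (mul_mem (inv_mem hh) hy) hh)) using 1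
      simp only [_root_.map_sub, ← Module.End.mul_apply, ← map_mul]
      congr 3; group⟩

theorem Us.mono (X : Set G) : Monotone (Us ρ X) := monotone_nat_of_le_succ fun k u hu =>
  ⟨trivial, fun y hy => sub_mem (Us.inv ρ X k y hy u hu) hu⟩

include en fX in
theorem Us.top {n : ℕ} (c : ∀ y ∈ Cm X n, ρ y = 1) (v : V) : ∃ k, v ∈ Us ρ X k := by
  have mem : ∀ v, v ∈ ⨆ k, Us ρ X k ↔ ∃ k, v ∈ Us ρ X k := fun v =>
    Submodule.mem_iSup_of_directed _ (Us.mono ρ X).directed_le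
  by_contra ne
  obtain ⟨w, a, b⟩ := fix3 ρ en fX (U := ⨆ k, Us ρ X k) (fun h hh u hu => by
      obtain ⟨k, hk⟩ := (mem u).1 hu
      exact (mem _).2 ⟨k, Us.inv ρ X k h hh u hk⟩) n ⊤ (fun _ _ _ _ => trivial)
    (fun k => ne ((mem v).1 (k trivial))) fun y hy w _ => by simp [c y hy]
  choose! f hf using fun x hx => (mem _).1 (b x hx)
  obtain ⟨k, hk⟩ := (fX.image f).bddAbove
  refine a ((mem w).2 ⟨k + 1, trivial, fun h hh => ?_⟩)
  induction hh using Subgroup.closure_induction with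
  | mem x hx => exact Us.mono ρ X (hk ⟨x, hx, rfl⟩) (hf x hx)
  | one => simp
  | mul a b ha _ i j =>
    convert add_mem i (Us.inv ρ X k a ha _ j) using 1
    simp
  | inv a ha i =>
    convert neg_mem (Us.inv ρ X k _ (inv_mem ha) _ i) using 1
    have : ρ a⁻¹ (ρ a w) = w := by rw [← Module.End.mul_apply, ← map_mul]; simp
    simp [this]

end fix

/-- Local nilpotency modulo `N`. -/
def LN (N : Subgroup G) : Prop := ∀ X : Set G, X.Finite → ∃ n, Cm X n ⊆ N

theorem ln_ab (h : BC (⊥ : Subgroup G) ⊤) (nb : ¬ Bad (⊤ : Subgroup G)) {A : Subgroup G}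
    (hA : BC A ⊤) (c : ∀ a ∈ A, ∀ b ∈ A, a * b = b * a) (l : LN A) : LN (⊥ : Subgroup G) := by
  intro X fX
  have := hA.normal inferInstance
  let _ : CommGroup A := { A.toGroup with mul_comm := fun a b => Subtype.ext (c _ a.2 _ b.2) }
  let ρ : G →* Module.End ℤ (Additive A) :=
    (Representation.ofMulDistribMulAction (ConjAct G) A).comp ConjAct.toConjAct.toMonoidHom
  let ι : Multiplicative (Additive A) →* G := A.subtype
  have ii : Function.Injective ι := A.subtype_injective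
  have ic : ∀ g v, ι (.ofAdd (ρ g v)) = g * ι (.ofAdd v) * g⁻¹ := fun _ _ => rfl
  have r : ι.range = A := A.range_subtype
  obtain ⟨n, hn⟩ := l X fX
  have top := Us.top ρ (engel ρ ι ii ic h nb (by rw [r]; exact hA)) fX (n := n)
    fun y hy => rho_one ρ ι ii ic (by rw [r]; exact hn hy)
  have key : ∀ k n, (∀ y ∈ Cm X n, ∃ v ∈ Us ρ X k, ι (.ofAdd v) = y) → Cm X (n + k) ⊆ (⊥ : Subgroup G) := by
    intro k
    induction k with
    | zero =>
      intro n e y hy
      obtain ⟨v, a, rfl⟩ := e y hy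
      rw [show v = 0 from a]; exact map_one ι
    | succ k ih =>
      intro n e
      rw [← add_assoc, add_right_comm]
      refine ih _ ?_
      rintro _ ⟨y, hy, x, hx, rfl⟩
      obtain ⟨v, a, rfl⟩ := e y hy
      refine ⟨_, neg_mem (a.2 x (Subgroup.subset_closure hx)), ?_⟩
      rw [neg_sub, sub_eq_add_neg, ofAdd_add, ofAdd_neg, map_mul, map_inv, ic]
      simp [commutatorElement_def, mul_assoc]
  choose! f hf using fun y (hy : y ∈ Cm X n) => top (.ofMul ⟨y, hn hy⟩)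
  obtain ⟨k, hk⟩ := ((Cm.fin fX n).image f).bddAbove
  exact ⟨_, key k n fun y hy => ⟨_, Us.mono ρ X (hk ⟨y, hy, rfl⟩) (hf y hy), rfl⟩⟩

theorem ln_mod (nb : ¬ Bad (⊤ : Subgroup G)) {N M : Subgroup G} (le : N ≤ M) (hN : BC N ⊤)
    (hM : BC M ⊤) (c : ∀ a ∈ M, ∀ b ∈ M, ⁅a, b⁆ ∈ N) (l : LN M) : LN N := by
  have := hN.normal inferInstance
  have sj := QuotientGroup.mk'_surjective N
  intro X fX
  obtain ⟨n, hn⟩ := ln_ab hN.quot (fun k => nb (k.comap _ sj)) (hM.map _ (by simpa using le) sj) (by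
      rintro _ ⟨a, ha, rfl⟩ _ ⟨b, hb, rfl⟩
      rw [← commutatorElement_eq_one_iff_mul_comm, ← map_commutatorElement]
      exact (QuotientGroup.eq_one_iff _).2 (c a ha b hb)) (fun Y fY => by
      obtain ⟨f, hf⟩ := sj.hasRightInverse
      obtain ⟨n, hn⟩ := l _ (fY.image f)
      refine ⟨n, ?_⟩
      rw [← hf.image_image Y, Cm.img]
      exact Set.image_mono hn) _ (fX.image (QuotientGroup.mk' N))
  rw [Cm.img] at hn
  exact ⟨n, fun y hy => (QuotientGroup.eq_one_iff y).1 (hn ⟨y, hy, rfl⟩)⟩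

/-- Kernels of maps onto orderable nilpotent groups killing the `j`-th derived subgroup of `H`. -/
def KK (H : Subgroup G) (j : ℕ) : Set (Subgroup G) :=
  {K | BC K ⊤ ∧ (∃ c, (⊤ : Subgroup G).lowerCentralSeries c ≤ K) ∧ (derivedSeries H j).map H.subtype ≤ K}

theorem KK.bc (H : Subgroup G) (j : ℕ) : BC (sInf (KK H j)) ⊤ := by
  simpa using BC.sInf (A := KK H j) inferInstance fun S hS => hS.1

theorem KK.ln (nb : ¬ Bad (⊤ : Subgroup G)) {H : Subgroup G} (g : Gen (H : Set G)) :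
    ∀ j, LN (sInf (KK H j))
  | 0 => fun X _ => ⟨0, fun x _ => Subgroup.mem_sInf.2 fun K hK => by
      rw [g K hK.1.rc fun y hy => hK.2.2 ⟨⟨y, hy⟩, trivial, rfl⟩]; trivial⟩
  | j + 1 => by
    refine ln_mod nb (sInf_le_sInf fun K hK => ⟨hK.1, hK.2.1,
      (Subgroup.map_mono (derivedSeries_antitone H j.le_succ)).trans hK.2.2⟩) (KK.bc _ _) (KK.bc _ j)
      (fun a ha b hb => Subgroup.mem_sInf.2 ?_) (KK.ln nb g j)
    rintro K ⟨k1, ⟨c, k2⟩, k3⟩
    have := k1.normal inferInstance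
    let π := QuotientGroup.mk' K
    have sj : Function.Surjective π := QuotientGroup.mk'_surjective K
    have lc : (⊤ : Subgroup (G ⧸ K)).lowerCentralSeries c = ⊥ := by
      rwa [← Subgroup.map_top_of_surjective _ sj, ← Subgroup.map_lowerCentralSeries,
        Subgroup.map_eq_bot_iff, QuotientGroup.ker_mk']
    have : Group.IsNilpotent (G ⧸ K) := Subgroup.nilpotent_iff_lowerCentralSeries.2 ⟨c, lc⟩
    let Y := (derivedSeries H j).map (π.comp H.subtype)
    have ci : ∀ (Z : Set (G ⧸ K)) x (k : ℕ), x ^ (k + 1) ∈ Subgroup.centralizer Z →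
        x ∈ Subgroup.centralizer Z := fun Z x k e y hy => (iso k1.quot (k := k) (e y hy).symm).eq.symm
    have : (Subgroup.centralizer (Y : Set (G ⧸ K))).Normal := by
      refine Subgroup.normalizer_eq_top_iff.1 (g.img π sj _ (rc_iso c _ (nm_iso (ci _)) (lc ▸ bot_le)) ?_)
      have key : ∀ h : H, ∀ x ∈ Subgroup.centralizer (Y : Set (G ⧸ K)),
          π h * x * (π h)⁻¹ ∈ Subgroup.centralizer (Y : Set (G ⧸ K)) := by
        rintro h x hx _ ⟨y, hy, rfl⟩
        have := hx _ ⟨_, (derivedSeries_normal H j).conj_mem y hy h⁻¹, rfl⟩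
        simp only [map_mul, map_inv, inv_inv, MonoidHom.comp_apply, Subgroup.subtype_apply] at this ⊢
        calc _ = π h * ((π h)⁻¹ * π y * π h * x) * (π h)⁻¹ := by group
          _ = _ := by rw [this]; group
      rintro _ ⟨h, hh, rfl⟩
      exact Subgroup.mem_normalizer_iff.2 fun x => ⟨key ⟨h, hh⟩ x, fun k => by
        simpa [mul_assoc] using key ⟨h, hh⟩⁻¹ _ k⟩
    let W := Subgroup.centralizer (Subgroup.centralizer (Y : Set (G ⧸ K)) : Set (G ⧸ K))
    have ab : Y ≤ Subgroup.centralizer (Y : Set (G ⧸ K)) := by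
      rw [← Subgroup.commutator_eq_bot_iff_le_centralizer, ← Subgroup.map_commutator, ← derivedSeries_succ,
        ← Subgroup.map_map, Subgroup.map_eq_bot_iff, QuotientGroup.ker_mk']
      exact k3
    have hW : W.comap π ∈ KK H j := ⟨bc_nil_mod inferInstance (c := c) (k2.trans fun x hx => by
        rw [Subgroup.mem_comap, show π x = 1 from (QuotientGroup.eq_one_iff x).2 hx]; exact one_mem _)
        fun x k e => ci _ _ k (by rw [← map_pow]; exact e),
      ⟨c, k2.trans fun x hx => by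
        rw [Subgroup.mem_comap, show π x = 1 from (QuotientGroup.eq_one_iff x).2 hx]; exact one_mem _⟩,
      by rintro _ ⟨x, hx, rfl⟩ y hy; exact (hy _ ⟨x, hx, rfl⟩).symm⟩
    refine (QuotientGroup.eq_one_iff _).1 (show π _ = 1 from ?_)
    rw [map_commutatorElement, commutatorElement_eq_one_iff_mul_comm]
    exact Subgroup.mem_sInf.1 hb _ hW _ (Subgroup.centralizer_le ab (Subgroup.mem_sInf.1 ha _ hW))

theorem nil_of_gen (h : BC (⊥ : Subgroup G) ⊤) (nb : ¬ Bad (⊤ : Subgroup G)) {H : Subgroup G}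
    [Group.IsSolvable H] {X : Set G} (XH : X ⊆ H) (fX : X.Finite) (g : Gen X) : Group.IsNilpotent G := by
  obtain ⟨d, hd⟩ := Group.IsSolvable.solvable (G := H)
  obtain ⟨n, hn⟩ := KK.ln nb (H := H) (fun S a b => g S a (XH.trans b)) d X fX
  by_cases e : Cm X n ⊆ {1}
  · exact nil_gen n G h nb X fX g e
  obtain ⟨y0, a0, b0⟩ := Set.not_subset.1 e
  obtain ⟨_, _, _⟩ := exBO h
  obtain ⟨y, a, b⟩ := Set.exists_max_image _ (fun y : G => max y y⁻¹) (Cm.fin fX n) ⟨y0, a0⟩
  have w1 : 1 < max y y⁻¹ := lt_of_lt_of_le (by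
    rcases lt_or_gt_of_ne b0 with c | c
    · exact lt_max_of_lt_right (by simpa using c)
    · exact lt_max_of_lt_left c) (b y0 a0)
  have := Sm.nm nb w1
  have sj := QuotientGroup.mk'_surjective (Sm w1)
  obtain ⟨c, hc⟩ := Subgroup.nilpotent_iff_lowerCentralSeries.1 (nil_gen (n + 1) _ (Sm.bc nb w1).quot
    (fun k => nb (k.comap _ sj)) _ (fX.image _) (g.img _ sj) (by
      rw [Cm.img]
      rintro _ ⟨_, ⟨z, hz, x, -, rfl⟩, rfl⟩
      refine (QuotientGroup.eq_one_iff _).2 ?_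
      rw [← inv_mem_iff, commutatorElement_inv]
      exact Sm.comm nb w1 (j := 1) (by simpa using (le_max_left _ _).trans (b z hz))
        (by simpa using (le_max_right _ _).trans (b z hz)) x))
  rw [← Subgroup.map_top_of_surjective _ sj, ← Subgroup.map_lowerCentralSeries,
    Subgroup.map_eq_bot_iff, QuotientGroup.ker_mk'] at hc
  have hy : y ∈ Sm w1 := Subgroup.mem_sInf.1 (hn a) _ ⟨Sm.bc nb w1, ⟨c, hc⟩, by simp [hd]⟩
  refine (Sm.self w1 ?_).elim
  rcases max_choice y y⁻¹ with c | c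
  · convert hy
  · convert inv_mem hy

theorem loc_nil (h : BC (⊥ : Subgroup G) ⊤) (nb : ¬ Bad (⊤ : Subgroup G)) {H : Subgroup G}
    (fH : H.FG) [Group.IsSolvable H] : Group.IsNilpotent H := by
  obtain ⟨X, rfl⟩ := fH
  let R := sInf {S : Subgroup G | RC S ⊤ ∧ (X : Set G) ⊆ S}
  have rR : RC R ⊤ := RC.sInf fun S hS => hS.1
  have XR : (X : Set G) ⊆ R := fun x hx => Subgroup.mem_sInf.2 fun S hS => hS.2 hx
  have le := (Subgroup.closure_le R).2 XR
  have : Group.IsSolvable ((Subgroup.closure (X : Set G)).subgroupOf R) :=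
    Group.isSolvable_of_isSolvable_injective (f := (Subgroup.subgroupOfEquivOfLe le).toMonoidHom)
      (Subgroup.subgroupOfEquivOfLe le).injective
  have : Group.IsNilpotent R := nil_of_gen (h.sub R) (fun k => nb (k.sub rR)) (X := R.subtype ⁻¹' X)
    (H := (Subgroup.closure (X : Set G)).subgroupOf R) (fun x hx => Subgroup.subset_closure hx)
    (X.finite_toSet.preimage R.subtype_injective.injOn) fun S a b => eq_top_iff.2 fun x _ => by
      have := a.map R.subtype (ker_sub _ _)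
      rw [map_sub] at this
      obtain ⟨y, c, d⟩ := Subgroup.mem_sInf.1 x.2 _ ⟨this.lex rR, fun x hx => ⟨⟨x, XR hx⟩, b hx, rfl⟩⟩
      rwa [← Subtype.ext d]
  exact Group.nilpotent_of_mulEquiv (Subgroup.subgroupOfEquivOfLe le)

end Pool.Agent.H.MP_b01f87_al
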