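import Pool.Agent.H.MP_b01f87_al.G

set_option autoImplicit false

namespace Pool.Agent.H.MP_b01f87_al

open scoped commutatorElement

universe u v

variable {G : Type u} [Group G]

theorem bc_of (h : ∃ _ : LinearOrder G, ∀ f g h : G, f < g → h * f < h * g ∧ f * h < g * h) :
    BC (⊥ : Subgroup G) ⊤ := by
  obtain ⟨_, h⟩ := h
  have : MulLeftStrictMono G := ⟨fun a _ _ k => (h _ _ a k).1⟩
  have : MulRightStrictMono G := ⟨fun a _ _ k => (h _ _ a k).2⟩
  exact bc_conv inferInstance fun x hx y a b => absurd (a.trans_le b) (by simp [Subgroup.mem_bot.1 hx])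

theorem nb_of (h : BC (⊥ : Subgroup G) ⊤) (c : ∀ _ : LinearOrder G, (∀ f g h : G, f < g → f * h < g * h) →
    ∀ f g : G, 1 < f → f < g → ∃ m : ℕ, 0 < m ∧ g < f * g ^ m * f⁻¹) : ¬ Bad (⊤ : Subgroup G) := by
  rintro ⟨S, P, l, f, g, a, b, d⟩
  obtain ⟨Q, q⟩ := (h.sub S).rc.map S.subtype (ker_sub _ _)
  rw [map_sub, Subgroup.map_bot] at q
  obtain ⟨o, k⟩ := exLO (q.lex l)
  obtain ⟨m, m0, e⟩ := c o (fun f g h e => by rw [k] at e ⊢; simpa [mul_assoc] using e) f⁻¹ g⁻¹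
    ((k _ _).2 (Or.inr (by simpa using a))) ((k _ _).2 (Or.inr (by simpa using b)))
  obtain ⟨m, rfl⟩ : ∃ i, m = i + 1 := ⟨m - 1, by omega⟩
  exact lt_asymm e ((k _ _).2 (Or.inr (by simpa using d m)))

/-- Thue-Morse words. -/
def TM {K : Type v} [Group K] (x y : K) : ℕ → K × K
  | 0 => (x, y)
  | n + 1 => ((TM x y n).1 * (TM x y n).2, (TM x y n).2 * (TM x y n).1)

theorem TM.map {K : Type v} [Group K] (f : K →* G) (x y : K) :
    ∀ n, TM (f x) (f y) n = (f (TM x y n).1, f (TM x y n).2)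
  | 0 => rfl
  | n + 1 => by simp [TM, TM.map f x y n]

theorem TM.lcs (x y : G) : ∀ n, (TM x y n).1 * (TM x y n).2⁻¹ ∈ (⊤ : Subgroup G).lowerCentralSeries n
  | 0 => trivial
  | n + 1 => by
    have := Subgroup.commutator_mem_commutator (TM.lcs x y n) (Subgroup.mem_top (TM x y n).2)
    rw [Subgroup.lowerCentralSeries_succ]
    convert this using 1
    simp only [TM, commutatorElement_def]; group

theorem TM.nil {H : Subgroup G} [Group.IsNilpotent H] {x y : G} (hx : x ∈ H) (hy : y ∈ H) :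
    ∃ n, (TM x y n).1 = (TM x y n).2 := by
  obtain ⟨c, hc⟩ := Subgroup.nilpotent_iff_lowerCentralSeries.1 ‹Group.IsNilpotent H›
  have := TM.lcs (⟨x, hx⟩ : H) ⟨y, hy⟩ c
  rw [hc, Subgroup.mem_bot, mul_inv_eq_one] at this
  have e := TM.map H.subtype ⟨x, hx⟩ ⟨y, hy⟩ c
  exact ⟨c, by rw [show TM x y c = _ from e, this]⟩

theorem conrad {K : Type v} [Group K] (t : ∀ x y : K, ∃ n, (TM x y n).1 = (TM x y n).2)
    (o : LinearOrder K) (h : ∀ f g h : K, f < g → f * h < g * h) (f g : K) (a : 1 < f) (b : f < g) :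
    ∃ m : ℕ, 0 < m ∧ g < f * g ^ m * f⁻¹ := by
  have : MulRightStrictMono K := ⟨fun a _ _ k => h _ _ a k⟩
  have := mulRightMono_of_mulRightStrictMono K
  by_contra! k
  have g1 : 1 < g := a.trans b
  have x1 : 1 < g * f⁻¹ := by simpa using h _ _ f⁻¹ b
  have k' : ∀ n : ℕ, g ^ n * (g * f⁻¹) < g := fun n => lt_of_lt_of_le
    (by simpa [pow_succ, mul_assoc] using h _ _ (g ^ (n + 1) * f⁻¹) a) (k (n + 1) n.succ_pos)
  let X : Set K := {p | 1 ≤ p ∧ ∃ n : ℕ, p ≤ g ^ n}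
  have key : ∀ n, ∀ p ∈ X, (p * (TM (g * f⁻¹) (g * g) n).1 ∈ X ∧ p * (TM (g * f⁻¹) (g * g) n).2 ∈ X) ∧
      (p * (TM (g * f⁻¹) (g * g) n).1 < g ∧ g < p * (TM (g * f⁻¹) (g * g) n).2 ∨
        p * (TM (g * f⁻¹) (g * g) n).2 < g ∧ g < p * (TM (g * f⁻¹) (g * g) n).1) ∧
      ∀ q ∈ X, (p * (TM (g * f⁻¹) (g * g) n).1 < g ↔ q * (TM (g * f⁻¹) (g * g) n).1 < g) := by
    intro n
    induction n with
    | zero =>
      have l : ∀ p ∈ X, p * (g * f⁻¹) < g := fun p ⟨_, n, hn⟩ => (mul_le_mul_left hn _).trans_lt (k' n)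
      rintro p ⟨p1, n, p2⟩
      simp only [TM]
      have l2 : g < p * (g * g) := (by simpa using h _ _ g g1 : g < g * g).trans_le
        (by simpa using mul_le_mul_left p1 (g * g))
      exact ⟨⟨⟨x1.le.trans (by simpa using mul_le_mul_left p1 (g * f⁻¹)), 1,
        by simpa using (l p ⟨p1, n, p2⟩).le⟩, (g1.trans l2).le, n + 2,
        by simpa [pow_succ, mul_assoc] using mul_le_mul_left p2 (g * g)⟩,
        Or.inl ⟨l p ⟨p1, n, p2⟩, l2⟩, fun q hq => iff_of_true (l p ⟨p1, n, p2⟩) (l q hq)⟩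
    | succ n ih =>
      intro p hp
      obtain ⟨⟨a1, a2⟩, -, -⟩ := ih p hp
      obtain ⟨⟨-, b2⟩, b3, b4⟩ := ih _ a1
      obtain ⟨⟨c1, -⟩, c3, -⟩ := ih _ a2
      have b5 := b4 _ a2
      simp only [TM, ← mul_assoc] at *
      refine ⟨⟨b2, c1⟩, by grind, fun q hq => ?_⟩
      obtain ⟨⟨d1, -⟩, -, -⟩ := ih q hq
      obtain ⟨-, d3, -⟩ := ih _ d1
      have := b4 _ d1
      grind
  obtain ⟨n, e⟩ := t (g * f⁻¹) (g * g)
  obtain ⟨-, c, -⟩ := key n 1 ⟨le_rfl, 0, by simp⟩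
  rw [e] at c
  exact c.elim (fun c => lt_asymm c.1 c.2) fun c => lt_asymm c.1 c.2

theorem tm_of {H : Subgroup G} (h : ∀ K ≤ H, K.FG → Group.IsNilpotent K) {x y : G} (hx : x ∈ H)
    (hy : y ∈ H) : ∃ n, (TM x y n).1 = (TM x y n).2 := by
  have := h (Subgroup.closure {x, y}) ((Subgroup.closure_le _).2 (by rintro _ (rfl | rfl) <;> assumption))
    ((Subgroup.fg_iff _).2 ⟨_, rfl, Set.toFinite _⟩)
  exact TM.nil (H := Subgroup.closure {x, y}) (Subgroup.subset_closure (by simp))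
    (Subgroup.subset_closure (by simp))

theorem tm_sub {H : Subgroup G} (h : ∀ K ≤ H, K.FG → Group.IsNilpotent K) (x y : H) :
    ∃ n, (TM x y n).1 = (TM x y n).2 := by
  obtain ⟨n, e⟩ := tm_of h x.2 y.2
  rw [show TM x.1 y.1 n = _ from TM.map H.subtype x y n] at e
  exact ⟨n, Subtype.ext e⟩

theorem tm_ext {K : Type v} [Group K] (h : ∀ L : Subgroup G, L.FG → Group.IsNilpotent L) (π : K →* G)
    (c : π.ker ≤ Subgroup.center K) (x y : K) : ∃ n, (TM x y n).1 = (TM x y n).2 := by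
  obtain ⟨n, e⟩ := tm_of (H := ⊤) (fun L _ => h L) (x := π x) (y := π y) trivial trivial
  rw [TM.map] at e
  have := Subgroup.mem_center_iff.1 (c (show (TM x y n).1 * (TM x y n).2⁻¹ ∈ π.ker by
    simp [MonoidHom.mem_ker, show π (TM x y n).1 = _ from e])) (TM x y n).2
  refine ⟨n + 1, ?_⟩
  show (TM x y n).1 * (TM x y n).2 = (TM x y n).2 * (TM x y n).1
  rw [← mul_assoc, inv_mul_cancel_right, mul_inv_eq_iff_eq_mul] at this
  exact this.symm

end Pool.Agent.H.MP_b01f87_al
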